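import Pool.Agent.Helper30.ZB.Defs

/-!
# The points of a finite scheme
-/

set_option autoImplicit false

namespace Pool.Agent.Helper30.ZB

open MvPolynomial

variable {ν : ℕ} {k K : Type} [Field k] [Field K] [Algebra k K]

/-- Zeros of `I` are given by algebra homomorphisms. -/
theorem Pts_zero {I : Ideal (MvPolynomial (Fin (ν + 1)) K)} (hI : Hom I) {c : Fin (ν + 1) → k}
    {m₁ : ℕ} (hm : Misses I c m₁) (K' : Type) [Field K'] [Algebra K K']
    (u : Fin (ν + 1) → K') (hu : u ≠ 0) (hz : ∀ g ∈ I, aeval u g = 0) :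
    ∃ (ψ : Qo I c →ₐ[K] K') (a : K'), a ≠ 0 ∧ u = fun i => a * ψ (cls I c (X i)) := by
  set a : K' := aeval u (lf K c) with ha
  have ha0 : a ≠ 0 := by
    intro h0
    obtain ⟨i, hi⟩ := Function.ne_iff.1 hu
    have h1 := hm m₁ le_rfl (X i ^ m₁) (by
      have h := (isHomogeneous_X K i).pow m₁
      rwa [one_mul] at h)
    have h2 : I ⊔ Ideal.span {lf K c} ≤ RingHom.ker (aeval u : _ →ₐ[K] K').toRingHom := by
      rw [sup_le_iff, Ideal.span_singleton_le_iff_mem]
      exact ⟨fun g hg => hz g hg, h0⟩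
    have h3 : aeval u (X i ^ m₁ : MvPolynomial (Fin (ν + 1)) K) = 0 := h2 h1
    rw [map_pow, aeval_X] at h3
    exact hi (eq_zero_of_pow_eq_zero h3)
  -- scaling a form
  have hscale : ∀ (n : ℕ) (p : MvPolynomial (Fin (ν + 1)) K), p.IsHomogeneous n →
      aeval (fun i => a⁻¹ * u i) p = a⁻¹ ^ n * aeval u p := by
    intro n p hp
    rw [aeval_def, aeval_def, eval₂_eq, eval₂_eq, Finset.mul_sum]
    refine Finset.sum_congr rfl fun m hmem => ?_
    have h1 : ∑ i ∈ m.support, m i = n := by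
      have h := hp (mem_support_iff.1 hmem)
      rw [← h, Finsupp.weight_apply, Finsupp.sum]
      simp
    have h2 : ∏ i ∈ m.support, (a⁻¹ * u i) ^ m i = a⁻¹ ^ n * ∏ i ∈ m.support, u i ^ m i := by
      rw [← h1, ← Finset.prod_pow_eq_pow_sum, ← Finset.prod_mul_distrib]
      exact Finset.prod_congr rfl fun i _ => mul_pow _ _ _
    rw [h2]
    ring
  have hker : I ⊔ Ideal.span {lf K c - 1} ≤
      RingHom.ker (aeval (fun i => a⁻¹ * u i) : _ →ₐ[K] K').toRingHom := by
    rw [sup_le_iff, Ideal.span_singleton_le_iff_mem]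
    constructor
    · intro g hg
      show aeval (fun i => a⁻¹ * u i) g = 0
      rw [← sum_homogeneousComponent g, map_sum]
      refine Finset.sum_eq_zero fun n _ => ?_
      rw [hscale n _ (homogeneousComponent_isHomogeneous n g), hz _ (hI g hg n), mul_zero]
    · show aeval (fun i => a⁻¹ * u i) (lf K c - 1) = 0
      have h1 : (lf K c).IsHomogeneous 1 := by
        unfold lf
        refine IsHomogeneous.sum _ _ _ fun i _ => ?_
        have h := (isHomogeneous_C (Fin (ν + 1)) (algebraMap k K (c i))).mul (isHomogeneous_X K i)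
        rwa [zero_add] at h
      rw [map_sub, hscale 1 _ h1, map_one, pow_one, ← ha, inv_mul_cancel₀ ha0, sub_self]
  have hker' : ∀ p ∈ I ⊔ Ideal.span {lf K c - 1}, (aeval (fun i => a⁻¹ * u i) : _ →ₐ[K] K') p = 0 :=
    fun p hp => hker hp
  refine ⟨Ideal.Quotient.liftₐ (I ⊔ Ideal.span {lf K c - 1})
    (aeval (fun i => a⁻¹ * u i) : _ →ₐ[K] K') hker', a, ha0, ?_⟩
  funext i
  have h1 : (Ideal.Quotient.liftₐ (I ⊔ Ideal.span {lf K c - 1})
      (aeval (fun i => a⁻¹ * u i) : _ →ₐ[K] K') hker') (cls I c (X i)) = a⁻¹ * u i :=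
    aeval_X _ i
  rw [h1, mul_inv_cancel_left₀ ha0]

/-- Algebra homomorphisms give zeros of `I`. -/
theorem Pts_of_hom {I : Ideal (MvPolynomial (Fin (ν + 1)) K)} {c : Fin (ν + 1) → k}
    (K' : Type) [Field K'] [Algebra K K'] (ψ : Qo I c →ₐ[K] K') :
    (∀ g ∈ I, aeval (fun i => ψ (cls I c (X i))) g = 0) ∧
      (fun i => ψ (cls I c (X i))) ≠ 0 ∧
      ∀ p, aeval (fun i => ψ (cls I c (X i))) p = ψ (cls I c p) := by
  have h3 : ∀ p, aeval (fun i => ψ (cls I c (X i))) p = ψ (cls I c p) := by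
    have h := MvPolynomial.algHom_ext (A := K') (f := aeval (fun i => ψ (cls I c (X i))))
      (g := ψ.comp (Ideal.Quotient.mkₐ K (I ⊔ Ideal.span {lf K c - 1}))) (fun i => by
        rw [aeval_X]
        rfl)
    intro p
    exact congrArg (fun f : MvPolynomial (Fin (ν + 1)) K →ₐ[K] K' => f p) h
  refine ⟨fun g hg => ?_, fun h0 => ?_, h3⟩
  · rw [h3]
    have h1 : cls I c g = 0 := Ideal.Quotient.eq_zero_iff_mem.2 (Ideal.mem_sup_left hg)
    rw [h1, map_zero]
  · have h1 : cls I c (lf K c - 1) = 0 :=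
      Ideal.Quotient.eq_zero_iff_mem.2 (Ideal.mem_sup_right (Ideal.mem_span_singleton_self _))
    have h2 := h3 (lf K c - 1)
    rw [h1, map_zero, h0, map_sub, map_one] at h2
    have h4 : aeval (0 : Fin (ν + 1) → K') (lf K c) = 0 := by
      unfold lf
      rw [map_sum]
      refine Finset.sum_eq_zero fun i _ => ?_
      rw [map_mul, aeval_X, Pi.zero_apply, mul_zero]
    rw [h4, zero_sub, neg_eq_zero] at h2
    exact one_ne_zero h2

end Pool.Agent.Helper30.ZB
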