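import Pool.Agent.Helper30.ZB.Defs
import Pool.Agent.Helper89.TC.Scale

/-!
# Heights in finite extensions
-/

set_option autoImplicit false

namespace Pool.Agent.Helper30.ZB

open MvPolynomial
open Pool.Agent.Helper16 (Place IsFunctionField)
open Pool.Agent.Helper38.TQ
open Pool.Agent.Helper30.TKN

variable {ν : ℕ} {k K : Type} [Field k] [Field K] [Algebra k K]

theorem Scale_triv {M : Type} [Field M] [Algebra k M] (v : Place k M) (a : k) :
    v.val (algebraMap k M a) ≤ 1 := by
  by_cases h : a = 0
  · rw [h, map_zero, map_zero]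
    exact zero_le
  · exact (v.triv a h).le

/-- The constant linear forms which are small at the point `y`. -/
noncomputable def Scale_bad {M : Type} [Field M] [Algebra k M] (v : Place k M)
    (y : Fin (ν + 1) → M) (hy : y ≠ 0) : Submodule k (Fin (ν + 1) → k) where
  carrier := {c | v.val (∑ i, algebraMap k M (c i) * y i) < nrm v y}
  add_mem' := by
    intro a b ha hb
    have h : ∑ i, algebraMap k M ((a + b) i) * y i =
        ∑ i, algebraMap k M (a i) * y i + ∑ i, algebraMap k M (b i) * y i := by
      rw [← Finset.sum_add_distrib]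
      refine Finset.sum_congr rfl fun i _ => ?_
      rw [Pi.add_apply, map_add, add_mul]
    show v.val _ < _
    rw [h]
    exact (v.val.map_add _ _).trans_lt (max_lt ha hb)
  zero_mem' := by
    show v.val _ < _
    simp only [Pi.zero_apply, map_zero, zero_mul, Finset.sum_const_zero]
    exact zero_lt_iff.2 (nrm_ne_zero hy)
  smul_mem' := by
    intro a c hc
    have h : ∑ i, algebraMap k M ((a • c) i) * y i =
        algebraMap k M a * ∑ i, algebraMap k M (c i) * y i := by
      rw [Finset.mul_sum]
      refine Finset.sum_congr rfl fun i _ => ?_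
      rw [Pi.smul_apply, smul_eq_mul, map_mul, mul_assoc]
    show v.val _ < _
    rw [h, map_mul]
    exact (mul_le_of_le_one_left' (Scale_triv v a)).trans_lt hc

theorem Scale_bad_ne {M : Type} [Field M] [Algebra k M] (v : Place k M)
    (y : Fin (ν + 1) → M) (hy : y ≠ 0) : Scale_bad v y hy ≠ ⊤ := by
  classical
  intro h
  obtain ⟨i, hi⟩ := exists_val_eq_nrm v y
  have h1 : Pi.single i 1 ∈ Scale_bad v y hy := by
    rw [h]
    exact Submodule.mem_top
  have h2 : v.val (∑ j, algebraMap k M ((Pi.single i 1 : Fin (ν + 1) → k) j) * y j) <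
      nrm v y := h1
  rw [Finset.sum_eq_single i, Pi.single_eq_same, map_one, one_mul, hi] at h2
  · exact lt_irrefl _ h2
  · intro j _ hj
    rw [Pi.single_eq_of_ne hj, map_zero, zero_mul]
  · intro h3
    exact absurd (Finset.mem_univ i) h3

theorem Scale_lin_le {M : Type} [Field M] [Algebra k M] (v : Place k M)
    (y : Fin (ν + 1) → M) (c : Fin (ν + 1) → k) :
    v.val (∑ i, algebraMap k M (c i) * y i) ≤ nrm v y := by
  refine v.val.map_sum_le fun i _ => ?_
  rw [map_mul]
  exact (mul_le_of_le_one_left' (Scale_triv v _)).trans (val_le_nrm v y i)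

theorem Scale_eq {M : Type} [Field M] [Algebra k M] {v : Place k M}
    {y : Fin (ν + 1) → M} {hy : y ≠ 0} {c : Fin (ν + 1) → k} (hc : c ∉ Scale_bad v y hy) :
    v.val (∑ i, algebraMap k M (c i) * y i) = nrm v y :=
  le_antisymm (Scale_lin_le v y c) (not_lt.1 hc)

theorem Scale_avoid [Infinite k] {ι : Type} [Finite ι]
    (p : ι → Submodule k (Fin (ν + 1) → k)) (hp : ∀ j, p j ≠ ⊤) : ∃ c, ∀ j, c ∉ p j := by
  by_contra h
  push Not at h
  obtain ⟨j, hj⟩ := Subspace.exists_eq_top_of_iUnion_eq_univ (p := p) (by
    ext c
    simpa using h c)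
  exact hp j hj

/-- A constant linear form which does not become small at any of finitely many points. -/
theorem Scale_generic [IsAlgClosed k] {M : Type} [Field M] [Algebra k M] (v : Place k M)
    {ι : Type} [Finite ι] (y : ι → Fin (ν + 1) → M) (hy : ∀ j, y j ≠ 0) :
    ∃ c : Fin (ν + 1) → k, ∀ j, v.val (∑ i, algebraMap k M (c i) * y j i) = nrm v (y j) := by
  have : Infinite k := IsAlgClosed.instInfinite
  obtain ⟨c, hc⟩ := Scale_avoid (fun j => Scale_bad v (y j) (hy j))
    fun j => Scale_bad_ne v (y j) (hy j)
  exact ⟨c, fun j => Scale_eq (hc j)⟩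

/-- The height is the number of poles of a generic combination of the coordinates. -/
theorem Scale_log {M : Type} [Field M] [Algebra k M] {y : Fin (ν + 1) → M} (hy : y ≠ 0)
    {i₀ : Fin (ν + 1)} (h1 : y i₀ = 1) {c : Fin (ν + 1) → k} (v : Place k M)
    (hc : WithZero.log (nrm v y) ≠ 0 → c ∉ Scale_bad v y hy) :
    WithZero.log (nrm v y) =
      max 0 (WithZero.log (v.val (∑ i, algebraMap k M (c i) * y i))) := by
  have h2 : (1 : WithZero (Multiplicative ℤ)) ≤ nrm v y := by
    have := val_le_nrm v y i₀
    rwa [h1, map_one] at this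
  have h3 : 0 ≤ WithZero.log (nrm v y) := by
    rw [← WithZero.log_one, WithZero.log_le_log one_ne_zero (nrm_ne_zero hy)]
    exact h2
  by_cases h : WithZero.log (nrm v y) = 0
  · rw [h]
    symm
    refine max_eq_left ?_
    by_cases h4 : v.val (∑ i, algebraMap k M (c i) * y i) = 0
    · rw [h4, WithZero.log_zero]
    · rw [← h, WithZero.log_le_log h4 (nrm_ne_zero hy)]
      exact Scale_lin_le v y c
  · rw [Scale_eq (hc h), max_eq_right h3]

/-- The height of a point in a finite extension, one coordinate equal to one. -/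
theorem Scale_ht_one [IsAlgClosed k] {L M : Type} [Field L] [Algebra k L]
    (hL : IsFunctionField k L) [Field M] [Algebra k M] [Algebra L M] [IsScalarTower k L M]
    [FiniteDimensional L M] {y : Fin (ν + 1) → L} (hy : y ≠ 0)
    {i₀ : Fin (ν + 1)} (h1 : y i₀ = 1) :
    ht k (fun i => algebraMap L M (y i)) = Module.finrank L M * ht k y := by
  classical
  have : Infinite k := IsAlgClosed.instInfinite
  have hM : IsFunctionField k M := Pool.Agent.Helper89.TC.isFunctionField_of_finite M hL
  have hy' : (fun i => algebraMap L M (y i)) ≠ 0 := by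
    intro h
    have h2 := congrFun h i₀
    simp only [h1, map_one, Pi.zero_apply] at h2
    exact one_ne_zero h2
  have f1 := nrm_support hL y hy
  have f2 := nrm_support hM _ hy'
  have : Finite (Function.support fun b : Place k L => WithZero.log (nrm b y)) := f1
  have : Finite (Function.support fun b : Place k M =>
    WithZero.log (nrm b fun i => algebraMap L M (y i))) := f2
  obtain ⟨c, hc⟩ := Scale_avoid
    (ι := (Function.support fun b : Place k L => WithZero.log (nrm b y)) ⊕
      (Function.support fun b : Place k M => WithZero.log (nrm b fun i => algebraMap L M (y i))))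
    (fun j => Sum.rec (fun b => Scale_bad b.1 y hy) (fun b => Scale_bad b.1 _ hy') j)
    (by
      rintro (b | b)
      · exact Scale_bad_ne _ _ _
      · exact Scale_bad_ne _ _ _)
  have e1 : ∀ v : Place k L, WithZero.log (nrm v y) =
      max 0 (WithZero.log (v.val (∑ i, algebraMap k L (c i) * y i))) :=
    fun v => Scale_log hy h1 v fun h => hc (Sum.inl ⟨v, h⟩)
  have e2 : ∀ v : Place k M, WithZero.log (nrm v fun i => algebraMap L M (y i)) =
      max 0 (WithZero.log (v.val (algebraMap L M (∑ i, algebraMap k L (c i) * y i)))) := by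
    intro v
    have h2 : algebraMap L M (∑ i, algebraMap k L (c i) * y i) =
        ∑ i, algebraMap k M (c i) * algebraMap L M (y i) := by
      rw [map_sum]
      refine Finset.sum_congr rfl fun i _ => ?_
      rw [map_mul, ← IsScalarTower.algebraMap_apply]
    rw [h2]
    exact Scale_log hy' (i₀ := i₀) (by simp only [h1, map_one]) v fun h => hc (Sum.inr ⟨v, h⟩)
  unfold ht
  rw [finsum_congr e1, finsum_congr e2]
  exact (Pool.Agent.Helper89.TC.finsum_pos_log M hL _).2

/-- The height of a point in a finite extension. -/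
theorem Scale_ht [IsAlgClosed k] (hK : IsFunctionField k K) {L M : Type} [Field L] [Algebra k L]
    [Algebra K L] [IsScalarTower k K L] [FiniteDimensional K L] [Field M] [Algebra k M]
    [Algebra K M] [IsScalarTower k K M] [FiniteDimensional K M] (σ : L →ₐ[K] M)
    {y : Fin (ν + 1) → L} (hy : y ≠ 0) :
    (Module.finrank K L : ℤ) * ht k (fun i => σ (y i)) = Module.finrank K M * ht k y := by
  classical
  have hL : IsFunctionField k L := Pool.Agent.Helper89.TC.isFunctionField_of_finite L hK
  have hM : IsFunctionField k M := Pool.Agent.Helper89.TC.isFunctionField_of_finite M hK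
  obtain ⟨i₀, hi₀⟩ : ∃ i, y i ≠ 0 := by
    by_contra h
    push Not at h
    exact hy (funext h)
  let _ : Algebra L M := σ.toRingHom.toAlgebra
  have hσ : ∀ x, algebraMap L M x = σ x := fun x => rfl
  have hKLM : IsScalarTower K L M := IsScalarTower.of_algebraMap_eq fun x => by
    rw [hσ, σ.commutes]
  have hkLM : IsScalarTower k L M := IsScalarTower.of_algebraMap_eq fun x => by
    rw [IsScalarTower.algebraMap_apply k K L, IsScalarTower.algebraMap_apply k K M, hσ,
      σ.commutes]
  have hfin : FiniteDimensional L M := Module.Finite.of_restrictScalars_finite K L M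
  have hσy : (fun i => σ (y i)) ≠ 0 := by
    intro h
    apply hi₀
    exact (map_eq_zero_iff σ σ.toRingHom.injective).1 (congrFun h i₀)
  have hz : (y i₀)⁻¹ • y ≠ 0 := smul_ne_zero (inv_ne_zero hi₀) hy
  have hz1 : ((y i₀)⁻¹ • y) i₀ = 1 := by
    rw [Pi.smul_apply, smul_eq_mul, inv_mul_cancel₀ hi₀]
  have h1 := Scale_ht_one (M := M) hL hz hz1
  rw [ht_smul hL (inv_ne_zero hi₀) hy] at h1
  have h2 : (fun i => algebraMap L M (((y i₀)⁻¹ • y) i)) =
      σ (y i₀)⁻¹ • fun i => σ (y i) := by
    funext i
    rw [hσ, Pi.smul_apply, Pi.smul_apply, smul_eq_mul, smul_eq_mul, map_mul]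
  rw [h2, ht_smul hM (by
    rw [Ne, map_eq_zero_iff σ σ.toRingHom.injective]
    exact inv_ne_zero hi₀) hσy] at h1
  rw [h1, ← mul_assoc, ← Nat.cast_mul, Module.finrank_mul_finrank]

/-- The coefficients of the polynomial `P` have height at most `C` (times the degree) over all
finite extensions. -/
def GsB (k : Type) {K : Type} [Field k] [Field K] [Algebra k K]
    (P : MvPolynomial (Fin (ν + 1)) K) (C : ℤ) : Prop :=
  ∀ (L : Type) [Field L] [Algebra k L] [Algebra K L] [IsScalarTower k K L]
    [FiniteDimensional K L],
    (Function.support fun v : Place k L =>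
      max 0 (WithZero.log (gs v (map (algebraMap K L) P)))).Finite ∧
    ∑ᶠ v : Place k L, max 0 (WithZero.log (gs v (map (algebraMap K L) P))) ≤
      C * (Module.finrank K L : ℤ)

theorem Scale_gs [IsAlgClosed k] (hK : IsFunctionField k K)
    (P : MvPolynomial (Fin (ν + 1)) K) : ∃ C : ℤ, 0 ≤ C ∧ GsB k P C := by
  classical
  refine ⟨∑ m ∈ P.support, ∑ᶠ b : Place k K, max 0 (WithZero.log (b.val (P.coeff m))),
    Finset.sum_nonneg fun m _ => finsum_nonneg fun b => le_max_left _ _, ?_⟩
  intro L _ _ _ _ _
  have hb : ∀ v : Place k L, max 0 (WithZero.log (gs v (map (algebraMap K L) P))) ≤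
      ∑ m ∈ P.support, max 0 (WithZero.log (v.val (algebraMap K L (P.coeff m)))) := by
    intro v
    have hnn : ∀ m ∈ P.support,
        0 ≤ max 0 (WithZero.log (v.val (algebraMap K L (P.coeff m)))) :=
      fun m _ => le_max_left _ _
    refine max_le (Finset.sum_nonneg hnn) ?_
    by_cases hP : map (algebraMap K L) P = 0
    · rw [hP, formHeight_zero, WithZero.log_zero]
      exact Finset.sum_nonneg hnn
    · obtain ⟨m, hm, h⟩ := formHeight_exists (b := v) hP
      rw [coeff_map] at hm h
      have hm' : m ∈ P.support := by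
        rw [mem_support_iff]
        intro h0
        exact hm (by rw [h0, map_zero])
      rw [h]
      exact (le_max_right _ _).trans (Finset.single_le_sum (f := fun m =>
        max 0 (WithZero.log (v.val (algebraMap K L (P.coeff m))))) hnn hm')
  have hfin : ∀ m ∈ P.support, (Function.support fun v : Place k L =>
      max 0 (WithZero.log (v.val (algebraMap K L (P.coeff m))))).Finite :=
    fun m _ => (Pool.Agent.Helper89.TC.finsum_pos_log L hK (P.coeff m)).1
  have hfin2 : (Function.support fun v : Place k L =>
      ∑ m ∈ P.support, max 0 (WithZero.log (v.val (algebraMap K L (P.coeff m))))).Finite := by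
    refine (Set.Finite.biUnion (Finset.finite_toSet P.support) fun m hm => hfin m hm).subset ?_
    intro v hv
    by_contra h
    apply hv
    refine Finset.sum_eq_zero fun m hm => ?_
    by_contra h2
    apply h
    simp only [Set.mem_iUnion]
    exact ⟨m, hm, h2⟩
  have hfin1 : (Function.support fun v : Place k L =>
      max 0 (WithZero.log (gs v (map (algebraMap K L) P)))).Finite := by
    refine hfin2.subset fun v hv => ?_
    intro h
    apply hv
    exact le_antisymm ((hb v).trans h.le) (le_max_left _ _)
  refine ⟨hfin1, ?_⟩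
  calc _ ≤ ∑ᶠ v : Place k L,
        ∑ m ∈ P.support, max 0 (WithZero.log (v.val (algebraMap K L (P.coeff m)))) :=
        finsum_le_finsum' hfin1 hfin2 hb
    _ = ∑ m ∈ P.support, ∑ᶠ v : Place k L,
          max 0 (WithZero.log (v.val (algebraMap K L (P.coeff m)))) :=
        finsum_sum_comm _ _ hfin
    _ = _ := by
        rw [Finset.sum_mul]
        refine Finset.sum_congr rfl fun m _ => ?_
        rw [(Pool.Agent.Helper89.TC.finsum_pos_log L hK (P.coeff m)).2, mul_comm]

end Pool.Agent.Helper30.ZB
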