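import Pool.Agent.Helper30.ZB.Defs

/-!
# The ultrametric bound for determinants
-/

set_option autoImplicit false

namespace Pool.Agent.Helper30.ZB

open MvPolynomial
open Pool.Agent.Helper16 (Place IsFunctionField)
open Pool.Agent.Helper38.TQ
open Pool.Agent.Helper30.TKN

variable {ν : ℕ} {k K : Type} [Field k] [Field K] [Algebra k K]

theorem UDet_gs_mul (b : Place k K) (P Q : MvPolynomial (Fin (ν + 1)) K) :
    gs b (P * Q) ≤ gs b P * gs b Q := by
  classical
  refine formHeight_gs_le fun m => ?_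
  rw [coeff_mul]
  refine b.val.map_sum_le fun p _ => ?_
  rw [map_mul]
  exact mul_le_mul' (formHeight_le b P _) (formHeight_le b Q _)

theorem UDet_triv (b : Place k K) (a : k) : b.val (algebraMap k K a) ≤ 1 := by
  by_cases h : a = 0
  · rw [h, map_zero, map_zero]
    exact zero_le
  · exact (b.triv a h).le

theorem UDet_gs_lf (b : Place k K) (c : Fin (ν + 1) → k) : gs b (lf K c) ≤ 1 := by
  classical
  refine formHeight_gs_le fun m => ?_
  unfold lf
  rw [coeff_sum]
  refine b.val.map_sum_le fun i _ => ?_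
  rw [coeff_C_mul, map_mul, coeff_X]
  refine mul_le_one' (UDet_triv b _) ?_
  split_ifs
  · rw [map_one]
  · rw [map_zero]
    exact zero_le

theorem UDet_gs_one (b : Place k K) : gs b (1 : MvPolynomial (Fin (ν + 1)) K) ≤ 1 := by
  classical
  refine formHeight_gs_le fun m => ?_
  rw [coeff_one]
  split_ifs
  · rw [map_one]
  · rw [map_zero]
    exact zero_le

theorem UDet_gs_pow (b : Place k K) (P : MvPolynomial (Fin (ν + 1)) K) (n : ℕ) :
    gs b (P ^ n) ≤ gs b P ^ n := by
  induction n with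
  | zero =>
    rw [pow_zero, pow_zero]
    exact UDet_gs_one b
  | succ n ih =>
    rw [pow_succ, pow_succ]
    exact (UDet_gs_mul b _ _).trans (mul_le_mul' ih le_rfl)

theorem UDet_le (b : Place k K) {ι : Type} [Fintype ι] [DecidableEq ι]
    (P : ι → Fin (ν + 1) → K) (g : ι → MvPolynomial (Fin (ν + 1)) K) {m : ℕ}
    (hg : ∀ κ, (g κ).IsHomogeneous m) :
    b.val (Matrix.of fun i κ => eval (P i) (g κ)).det ≤
      (∏ i, nrm b (P i) ^ m) * ∏ κ, gs b (g κ) := by
  rw [Matrix.det_apply]
  refine b.val.map_sum_le fun σ _ => ?_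
  have h1 : b.val (Equiv.Perm.sign σ • ∏ i, (Matrix.of fun i κ => eval (P i) (g κ)) (σ i) i) =
      b.val (∏ i, eval (P (σ i)) (g i)) := by
    rcases Int.units_eq_one_or (Equiv.Perm.sign σ) with h | h
    · rw [h, one_smul]
      rfl
    · rw [h, Units.neg_smul, one_smul, Valuation.map_neg]
      rfl
  rw [h1, map_prod, ← Equiv.prod_comp σ fun i => nrm b (P i) ^ m, ← Finset.prod_mul_distrib]
  refine Finset.prod_le_prod' fun i _ => ?_
  rw [mul_comm]
  exact low_val_eval_le b (hg i) _

/-- The forms of the family. -/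
theorem UDet_fam {M : Type} [Field M] [Algebra k M] [Algebra K M] [IsScalarTower k K M]
    (v : Place k M) {q s : ℕ} {h : MvPolynomial (Fin (ν + 1)) K} {e : ℕ}
    {qa : Fin q → MvPolynomial (Fin (ν + 1)) K} {pc : Fin s → MvPolynomial (Fin (ν + 1)) K}
    (n : ℕ) (c : Fin (ν + 1) → k) :
    ∏ κ, gs v (map (algebraMap K M) (fam h e qa pc n c κ)) ≤
      gs v (map (algebraMap K M) h) ^ (q * (n * (n + 1) / 2) + (n + 1) * s) *
        (∏ a, gs v (map (algebraMap K M) (qa a))) ^ (n + 1) *
          ∏ i, gs v (map (algebraMap K M) (pc i)) := by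
  set H := gs v (map (algebraMap K M) h) with hH
  have hl : map (algebraMap K M) (lf K c) = lf M c := by
    unfold lf
    rw [map_sum]
    refine Finset.sum_congr rfl fun i _ => ?_
    rw [map_mul, map_C, map_X, ← IsScalarTower.algebraMap_apply]
  have h1 : ∀ (j : Fin (n + 1)) (a : Fin q),
      gs v (map (algebraMap K M) (fam h e qa pc n c (Sum.inl (j, a)))) ≤
        H ^ (j : ℕ) * gs v (map (algebraMap K M) (qa a)) := by
    intro j a
    show gs v (map (algebraMap K M) (h ^ (j : ℕ) * lf K c ^ ((n - j) * e) * qa a)) ≤ _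
    rw [map_mul, map_mul, map_pow, map_pow, hl]
    refine (UDet_gs_mul v _ _).trans (mul_le_mul' ?_ le_rfl)
    refine (UDet_gs_mul v _ _).trans ?_
    have h2 : gs v (lf M c ^ ((n - (j : ℕ)) * e)) ≤ 1 :=
      (UDet_gs_pow v _ _).trans (pow_le_one₀ zero_le (UDet_gs_lf v c))
    calc _ ≤ H ^ (j : ℕ) * 1 := mul_le_mul' (UDet_gs_pow v _ _) h2
      _ = _ := mul_one _
  have h2 : ∀ i : Fin s,
      gs v (map (algebraMap K M) (fam h e qa pc n c (Sum.inr i))) ≤
        H ^ (n + 1) * gs v (map (algebraMap K M) (pc i)) := by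
    intro i
    show gs v (map (algebraMap K M) (h ^ (n + 1) * pc i)) ≤ _
    rw [map_mul, map_pow]
    exact (UDet_gs_mul v _ _).trans (mul_le_mul' (UDet_gs_pow v _ _) le_rfl)
  have h3 : ∑ j : Fin (n + 1), (j : ℕ) = n * (n + 1) / 2 := by
    rw [Fin.sum_univ_eq_sum_range fun i => i, Finset.sum_range_id, Nat.add_sub_cancel, mul_comm]
  rw [Fintype.prod_sum_type, Fintype.prod_prod_type]
  calc _ ≤ (∏ j : Fin (n + 1), ∏ a, (H ^ (j : ℕ) * gs v (map (algebraMap K M) (qa a)))) *
        ∏ i, (H ^ (n + 1) * gs v (map (algebraMap K M) (pc i))) :=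
        mul_le_mul' (Finset.prod_le_prod' fun j _ => Finset.prod_le_prod' fun a _ => h1 j a)
          (Finset.prod_le_prod' fun i _ => h2 i)
    _ = _ := by
        simp only [Finset.prod_mul_distrib, Finset.prod_const, Finset.card_univ, Fintype.card_fin]
        rw [Finset.prod_pow, Finset.prod_pow_eq_pow_sum, h3, ← pow_mul, ← pow_mul, pow_add H,
          mul_comm q, mul_mul_mul_comm, ← mul_assoc]

end Pool.Agent.Helper30.ZB
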