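import Pool.Agent.Helper30.ZB.Det
import Pool.Agent.Helper30.ZB.Scale
import Pool.Agent.Helper30.ZB.UDet
import Pool.Agent.Helper30.ZB.Pts

/-!
# The product formula for the evaluation determinant
-/

set_option autoImplicit false

namespace Pool.Agent.Helper30.ZB

open MvPolynomial
open Pool.Agent.Helper16 (Place IsFunctionField)
open Pool.Agent.Helper38.TQ
open Pool.Agent.Helper30.TKN

variable {ν : ℕ} {k K : Type} [Field k] [Field K] [Algebra k K]

/-- The family consists of forms of degree `m₂ + n e`. -/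
theorem Level_fam_hom {J : Ideal (MvPolynomial (Fin (ν + 1)) K)}
    {h : MvPolynomial (Fin (ν + 1)) K} {e : ℕ}
    {c : Fin (ν + 1) → k} {m₂ q s : ℕ} {qa : Fin q → MvPolynomial (Fin (ν + 1)) K}
    {pc : Fin s → MvPolynomial (Fin (ν + 1)) K} (D : Data J h e c m₂ q s qa pc) (n : ℕ)
    (c' : Fin (ν + 1) → k) (κ : (Fin (n + 1) × Fin q) ⊕ Fin s) :
    (fam h e qa pc n c' κ).IsHomogeneous (m₂ + n * e) := by
  have hlf : (lf K c').IsHomogeneous 1 := by
    unfold lf
    refine IsHomogeneous.sum _ _ _ fun i _ => ?_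
    have h1 := (isHomogeneous_C (Fin (ν + 1)) (algebraMap k K (c' i))).mul (isHomogeneous_X K i)
    rwa [zero_add] at h1
  rcases κ with ⟨j, a⟩ | i
  · have h1 := ((D.h_hom.pow (j : ℕ)).mul (hlf.pow ((n - j) * e))).mul (D.qa_hom a)
    have h3 : ∀ j' n' : ℕ, j' ≤ n' → e * j' + 1 * ((n' - j') * e) + m₂ = m₂ + n' * e := by
      intro j' n' hj
      obtain ⟨r, rfl⟩ := Nat.exists_eq_add_of_le hj
      rw [Nat.add_sub_cancel_left]
      ring
    have h2 : e * (j : ℕ) + 1 * ((n - j) * e) + m₂ = m₂ + n * e :=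
      h3 j n (Nat.lt_succ_iff.1 j.2)
    rw [h2] at h1
    exact h1
  · have h1 := (D.h_hom.pow (n + 1)).mul (D.pc_hom i)
    have h2 : e * (n + 1) + (m₂ - e) = m₂ + n * e := by
      have h3 := D.e_le
      have h4 : e * (n + 1) = n * e + e := by ring
      omega
    rw [h2] at h1
    exact h1

/-- The inequality at one place. -/
theorem Level_place [IsAlgClosed k]
    {J : Ideal (MvPolynomial (Fin (ν + 1)) K)} {h : MvPolynomial (Fin (ν + 1)) K} {e : ℕ}
    {c : Fin (ν + 1) → k} {m₂ q s : ℕ} {qa : Fin q → MvPolynomial (Fin (ν + 1)) K}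
    {pc : Fin s → MvPolynomial (Fin (ν + 1)) K} (D : Data J h e c m₂ q s qa pc)
    (n : ℕ) {M : Type} [Field M] [Algebra k M] [Algebra K M] [IsScalarTower k K M]
    (t : ℕ) (χ : Fin t → (Qo (J ⊔ Ideal.span {h}) c →ₐ[K] M))
    (P : (Fin (n + 1) × Fin q) ⊕ Fin s → Fin (ν + 1) → M)
    (hN : ∀ a, algebraMap K M (Algebra.norm K a) = ∏ i, χ i a)
    (hPJ : ∀ κ, ∀ g ∈ J, aeval (P κ) g = 0) (v : Place k M) :
    v.val (Matrix.of fun κ κ' => aeval (P κ) (fam h e qa pc n c κ')).det *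
        (∏ i, nrm v (fun a => χ i (cls (J ⊔ Ideal.span {h}) c (X a)))) ^ (e * (n * (n + 1) / 2)) ≤
      (∏ κ, nrm v (P κ) ^ (m₂ + n * e)) *
        (gs v (map (algebraMap K M) h) ^ (q * (n * (n + 1) / 2) + (n + 1) * s) *
          (∏ a, gs v (map (algebraMap K M) (qa a))) ^ (n + 1) *
            ∏ i, gs v (map (algebraMap K M) (pc i))) := by
  classical
  obtain ⟨c', hc'⟩ := Scale_generic v (fun i a => χ i (cls (J ⊔ Ideal.span {h}) c (X a)))
    (fun i => (Pts_of_hom M (χ i)).2.1)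
  obtain ⟨T, hT1, hT2⟩ := Det_change D n c'
  have hlf : ∀ i, χ i (cls (J ⊔ Ideal.span {h}) c (lf K c')) =
      ∑ a, algebraMap k M (c' a) * χ i (cls (J ⊔ Ideal.span {h}) c (X a)) := by
    intro i
    rw [← (Pts_of_hom M (χ i)).2.2 (lf K c')]
    unfold lf
    rw [map_sum]
    refine Finset.sum_congr rfl fun a _ => ?_
    rw [map_mul, aeval_C, aeval_X, IsScalarTower.algebraMap_apply k K M]
  have hE : (Matrix.of fun κ κ' => aeval (P κ) (fam h e qa pc n c' κ')) =
      (Matrix.of fun κ κ' => aeval (P κ) (fam h e qa pc n c κ')) *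
        (T.map (algebraMap K M)).transpose := by
    ext κ κ'
    rw [Matrix.mul_apply, Matrix.of_apply]
    have h1 := hPJ κ _ (hT1 κ')
    rw [map_sub, map_sum, sub_eq_zero] at h1
    rw [h1]
    refine Finset.sum_congr rfl fun κ'' _ => ?_
    rw [map_mul, aeval_C, Matrix.of_apply, Matrix.transpose_apply, Matrix.map_apply, mul_comm]
  have hdet : (Matrix.of fun κ κ' => aeval (P κ) (fam h e qa pc n c' κ')).det =
      (Matrix.of fun κ κ' => aeval (P κ) (fam h e qa pc n c κ')).det *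
        (∏ i, χ i (cls (J ⊔ Ideal.span {h}) c (lf K c'))) ^ (e * (n * (n + 1) / 2)) := by
    rw [hE, Matrix.det_mul, Matrix.det_transpose]
    congr 1
    have h1 : (T.map (algebraMap K M)).det = algebraMap K M T.det := by
      rw [RingHom.map_det]
      rfl
    rw [h1, hT2, map_pow, hN]
  have hval : v.val (Matrix.of fun κ κ' => aeval (P κ) (fam h e qa pc n c' κ')).det =
      v.val (Matrix.of fun κ κ' => aeval (P κ) (fam h e qa pc n c κ')).det *
        (∏ i, nrm v (fun a => χ i (cls (J ⊔ Ideal.span {h}) c (X a)))) ^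
          (e * (n * (n + 1) / 2)) := by
    rw [hdet, map_mul, map_pow, map_prod]
    congr 2
    refine Finset.prod_congr rfl fun i _ => ?_
    rw [hlf i]
    exact hc' i
  rw [← hval]
  have h2 := UDet_le v P (fun κ => map (algebraMap K M) (fam h e qa pc n c' κ))
    (fun κ => (Level_fam_hom D n c' κ).map (algebraMap K M))
  have h3 : (Matrix.of fun i κ => eval (P i) (map (algebraMap K M) (fam h e qa pc n c' κ))) =
      Matrix.of fun κ κ' => aeval (P κ) (fam h e qa pc n c' κ') := by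
    ext κ κ'
    rw [Matrix.of_apply, Matrix.of_apply, eval_map, aeval_def]
  rw [h3] at h2
  exact h2.trans (mul_le_mul_right (UDet_fam v n c') _)

/-- The inequality for the logarithms at one place. -/
theorem Level_log [IsAlgClosed k]
    {J : Ideal (MvPolynomial (Fin (ν + 1)) K)} {h : MvPolynomial (Fin (ν + 1)) K} {e : ℕ}
    {c : Fin (ν + 1) → k} {m₂ q s : ℕ} {qa : Fin q → MvPolynomial (Fin (ν + 1)) K}
    {pc : Fin s → MvPolynomial (Fin (ν + 1)) K} (D : Data J h e c m₂ q s qa pc)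
    (n : ℕ) {M : Type} [Field M] [Algebra k M] [Algebra K M] [IsScalarTower k K M]
    (t : ℕ) (χ : Fin t → (Qo (J ⊔ Ideal.span {h}) c →ₐ[K] M))
    (P : (Fin (n + 1) × Fin q) ⊕ Fin s → Fin (ν + 1) → M)
    (hN : ∀ a, algebraMap K M (Algebra.norm K a) = ∏ i, χ i a)
    (hPJ : ∀ κ, ∀ g ∈ J, aeval (P κ) g = 0)
    (hdet : (Matrix.of fun κ κ' => aeval (P κ) (fam h e qa pc n c κ')).det ≠ 0)
    (v : Place k M) :
    WithZero.log (v.val (Matrix.of fun κ κ' => aeval (P κ) (fam h e qa pc n c κ')).det) +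
        ((e * (n * (n + 1) / 2) : ℕ) : ℤ) *
          ∑ i, WithZero.log (nrm v (fun a => χ i (cls (J ⊔ Ideal.span {h}) c (X a)))) ≤
      ((m₂ + n * e : ℕ) : ℤ) * ∑ κ, WithZero.log (nrm v (P κ)) +
        (((q * (n * (n + 1) / 2) + (n + 1) * s : ℕ) : ℤ) *
            max 0 (WithZero.log (gs v (map (algebraMap K M) h))) +
          ((n + 1 : ℕ) : ℤ) *
            ∑ a, max 0 (WithZero.log (gs v (map (algebraMap K M) (qa a)))) +
          ∑ i, max 0 (WithZero.log (gs v (map (algebraMap K M) (pc i))))) := by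
  classical
  have h1 := Level_place D n t χ P hN hPJ v
  have hx : ∀ i, nrm v (fun a => χ i (cls (J ⊔ Ideal.span {h}) c (X a))) ≠ 0 :=
    fun i => nrm_ne_zero (Pts_of_hom M (χ i)).2.1
  have hd : v.val (Matrix.of fun κ κ' => aeval (P κ) (fam h e qa pc n c κ')).det ≠ 0 := by
    simpa using hdet
  have hl : v.val (Matrix.of fun κ κ' => aeval (P κ) (fam h e qa pc n c κ')).det *
        (∏ i, nrm v (fun a => χ i (cls (J ⊔ Ideal.span {h}) c (X a)))) ^
          (e * (n * (n + 1) / 2)) ≠ 0 :=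
    mul_ne_zero hd (pow_ne_zero _ (Finset.prod_ne_zero_iff.2 fun i _ => hx i))
  have hr := (lt_of_lt_of_le (zero_lt_iff.2 hl) h1).ne'
  have h2 := (WithZero.log_le_log hl hr).2 h1
  have hr1 := left_ne_zero_of_mul hr
  have hr2 := right_ne_zero_of_mul hr
  have hr3 := left_ne_zero_of_mul hr2
  have hr4 := right_ne_zero_of_mul hr2
  have hr5 := left_ne_zero_of_mul hr3
  have hr6 := right_ne_zero_of_mul hr3
  have hlogprod : ∀ {ι : Type} [Fintype ι] (f : ι → WithZero (Multiplicative ℤ)),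
      (∏ i, f i ≠ 0) → WithZero.log (∏ i, f i) = ∑ i, WithZero.log (f i) := by
    intro ι _ f hf
    have hgen : ∀ S : Finset ι, WithZero.log (∏ i ∈ S, f i) = ∑ i ∈ S, WithZero.log (f i) := by
      intro S
      induction S using Finset.induction_on with
      | empty => simp
      | insert a S ha ih =>
        rw [Finset.prod_insert ha, Finset.sum_insert ha, WithZero.log_mul, ih]
        · exact Finset.prod_ne_zero_iff.1 hf a (Finset.mem_univ _)
        · exact Finset.prod_ne_zero_iff.2 fun i _ => Finset.prod_ne_zero_iff.1 hf i (Finset.mem_univ _)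
    exact hgen _
  rw [WithZero.log_mul hd (right_ne_zero_of_mul hl), WithZero.log_mul hr1 hr2,
    WithZero.log_mul hr3 hr4, WithZero.log_mul hr5 hr6, WithZero.log_pow, WithZero.log_pow,
    WithZero.log_pow, hlogprod _ (Finset.prod_ne_zero_iff.2 fun i _ => hx i), hlogprod _ hr1,
    hlogprod _ hr4] at h2
  have h3 : ∑ κ, WithZero.log (nrm v (P κ) ^ (m₂ + n * e)) =
      ((m₂ + n * e : ℕ) : ℤ) * ∑ κ, WithZero.log (nrm v (P κ)) := by
    rw [Finset.mul_sum]
    refine Finset.sum_congr rfl fun κ _ => ?_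
    rw [WithZero.log_pow, nsmul_eq_mul]
  rw [h3] at h2
  have h6 : ∏ a, gs v (map (algebraMap K M) (qa a)) ≠ 0 := by
    intro h0
    rw [h0] at hr6
    exact hr6 (zero_pow (by omega))
  rw [hlogprod _ h6] at h2
  simp only [nsmul_eq_mul] at h2
  refine h2.trans ?_
  have h7 : (0 : ℤ) ≤ ((q * (n * (n + 1) / 2) + (n + 1) * s : ℕ) : ℤ) := Int.natCast_nonneg _
  have h8 : (0 : ℤ) ≤ ((n + 1 : ℕ) : ℤ) := Int.natCast_nonneg _
  gcongr with a _ i _
  · exact le_max_right _ _
  · exact le_max_right _ _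
  · exact le_max_right _ _

/-- The inequality for each `n`. -/
theorem Level [IsAlgClosed k] (hK : IsFunctionField k K)
    {J : Ideal (MvPolynomial (Fin (ν + 1)) K)} {h : MvPolynomial (Fin (ν + 1)) K} {e : ℕ}
    {c : Fin (ν + 1) → k} {m₂ q s : ℕ} {qa : Fin q → MvPolynomial (Fin (ν + 1)) K}
    {pc : Fin s → MvPolynomial (Fin (ν + 1)) K} (D : Data J h e c m₂ q s qa pc)
    (hfin : FiniteDimensional K (Qo (J ⊔ Ideal.span {h}) c)) {Ch : ℤ} (hCh0 : 0 ≤ Ch)
    (hCh : GsB k h Ch) :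
    ∃ C₂ : ℤ, ∀ (n : ℕ) (M : Type) [Field M] [Algebra k M] [Algebra K M] [IsScalarTower k K M]
      [FiniteDimensional K M] (t : ℕ) (χ : Fin t → (Qo (J ⊔ Ideal.span {h}) c →ₐ[K] M))
      (P : (Fin (n + 1) × Fin q) ⊕ Fin s → Fin (ν + 1) → M),
      (∀ a, algebraMap K M (Algebra.norm K a) = ∏ i, χ i a) → (∀ κ, P κ ≠ 0) →
      (∀ κ, ∀ g ∈ J, aeval (P κ) g = 0) →
      (Matrix.of fun κ κ' => aeval (P κ) (fam h e qa pc n c κ')).det ≠ 0 →
      ((e * (n * (n + 1) / 2) : ℕ) : ℤ) *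
          ∑ i, ht k (fun a => χ i (cls (J ⊔ Ideal.span {h}) c (X a))) ≤
        ((m₂ + n * e : ℕ) : ℤ) * ∑ κ, ht k (P κ) +
          (((q * (n * (n + 1) / 2) : ℕ) : ℤ) * Ch + ((n + 1 : ℕ) : ℤ) * C₂) *
            (Module.finrank K M : ℤ) := by
  classical
  choose Ca hCa0 hCa using fun a => Scale_gs (k := k) hK (qa a)
  choose Cp hCp0 hCp using fun i => Scale_gs (k := k) hK (pc i)
  refine ⟨s * Ch + ∑ a, Ca a + ∑ i, Cp i, ?_⟩
  intro n M _ _ _ _ _ t χ P hN hP0 hPJ hdet
  have hKM : IsFunctionField k M := Pool.Agent.Helper89.TC.isFunctionField_of_finite M hK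
  -- the finite set of places
  set A : MvPolynomial (Fin (ν + 1)) K → Place k M → ℤ := fun p v =>
    max 0 (WithZero.log (gs v (map (algebraMap K M) p))) with hA
  have hfs : ((Function.support fun v : Place k M => WithZero.log (v.val
        (Matrix.of fun κ κ' => aeval (P κ) (fam h e qa pc n c κ')).det)) ∪
      (⋃ i, Function.support fun v : Place k M => WithZero.log (nrm v
        (fun a => χ i (cls (J ⊔ Ideal.span {h}) c (X a))))) ∪
      (⋃ κ, Function.support fun v : Place k M => WithZero.log (nrm v (P κ))) ∪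
      Function.support (A h) ∪ (⋃ a, Function.support (A (qa a))) ∪
      (⋃ i, Function.support (A (pc i)))).Finite := by
    refine Set.Finite.union (Set.Finite.union (Set.Finite.union (Set.Finite.union
      (Set.Finite.union ?_ ?_) ?_) ?_) ?_) ?_
    · exact (finsum_log hKM _ hdet).1
    · exact Set.finite_iUnion fun i => nrm_support hKM _ (Pts_of_hom M (χ i)).2.1
    · exact Set.finite_iUnion fun κ => nrm_support hKM _ (hP0 κ)
    · exact (hCh M).1
    · exact Set.finite_iUnion fun a => (hCa a M).1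
    · exact Set.finite_iUnion fun i => (hCp i M).1
  set S := hfs.toFinset with hS
  have hsub : ∀ v, v ∉ S → WithZero.log (v.val
        (Matrix.of fun κ κ' => aeval (P κ) (fam h e qa pc n c κ')).det) = 0 ∧
      (∀ i, WithZero.log (nrm v (fun a => χ i (cls (J ⊔ Ideal.span {h}) c (X a)))) = 0) ∧
      (∀ κ, WithZero.log (nrm v (P κ)) = 0) ∧ A h v = 0 ∧ (∀ a, A (qa a) v = 0) ∧
      ∀ i, A (pc i) v = 0 := by
    intro v hv
    rw [hS, Set.Finite.mem_toFinset] at hv
    simp only [Set.mem_union, Set.mem_iUnion, Function.mem_support, not_or, not_exists,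
      not_not] at hv
    tauto
  have hconv : ∀ f : Place k M → ℤ, (∀ v, v ∉ S → f v = 0) → ∑ᶠ v, f v = ∑ v ∈ S, f v := by
    intro f hf
    refine finsum_eq_sum_of_support_subset _ fun v hv => ?_
    by_contra h
    exact hv (hf v h)
  have e1 : ∑ v ∈ S, WithZero.log (v.val
      (Matrix.of fun κ κ' => aeval (P κ) (fam h e qa pc n c κ')).det) = 0 := by
    rw [← hconv _ fun v hv => (hsub v hv).1, (finsum_log hKM _ hdet).2]
  have e2 : ∀ i, ht k (fun a => χ i (cls (J ⊔ Ideal.span {h}) c (X a))) =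
      ∑ v ∈ S, WithZero.log (nrm v (fun a => χ i (cls (J ⊔ Ideal.span {h}) c (X a)))) := by
    intro i
    exact hconv _ fun v hv => (hsub v hv).2.1 i
  have e3 : ∀ κ, ht k (P κ) = ∑ v ∈ S, WithZero.log (nrm v (P κ)) := by
    intro κ
    exact hconv _ fun v hv => (hsub v hv).2.2.1 κ
  have e4 : ∑ v ∈ S, A h v ≤ Ch * Module.finrank K M := by
    rw [← hconv _ fun v hv => (hsub v hv).2.2.2.1]
    exact (hCh M).2
  have e5 : ∀ a, ∑ v ∈ S, A (qa a) v ≤ Ca a * Module.finrank K M := by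
    intro a
    rw [← hconv _ fun v hv => (hsub v hv).2.2.2.2.1 a]
    exact (hCa a M).2
  have e6 : ∀ i, ∑ v ∈ S, A (pc i) v ≤ Cp i * Module.finrank K M := by
    intro i
    rw [← hconv _ fun v hv => (hsub v hv).2.2.2.2.2 i]
    exact (hCp i M).2
  have h1 := Finset.sum_le_sum fun v (_ : v ∈ S) => Level_log D n t χ P hN hPJ hdet v
  rw [Finset.sum_add_distrib, Finset.sum_add_distrib, Finset.sum_add_distrib,
    Finset.sum_add_distrib, e1, zero_add, ← Finset.mul_sum, ← Finset.mul_sum, ← Finset.mul_sum,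
    ← Finset.mul_sum, Finset.sum_comm, Finset.sum_comm (s := S) (t := Finset.univ),
    Finset.sum_comm (s := S) (t := Finset.univ), Finset.sum_comm (s := S) (t := Finset.univ)] at h1
  rw [← Finset.sum_congr rfl fun i _ => e2 i, ← Finset.sum_congr rfl fun κ _ => e3 κ] at h1
  refine h1.trans ?_
  have h7 : (0 : ℤ) ≤ ((q * (n * (n + 1) / 2) + (n + 1) * s : ℕ) : ℤ) := Int.natCast_nonneg _
  have h8 : (0 : ℤ) ≤ ((n + 1 : ℕ) : ℤ) := Int.natCast_nonneg _
  have h9 : (0 : ℤ) ≤ (Module.finrank K M : ℤ) := Int.natCast_nonneg _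
  have h10 : ∑ a, ∑ v ∈ S, A (qa a) v ≤ (∑ a, Ca a) * Module.finrank K M := by
    rw [Finset.sum_mul]
    exact Finset.sum_le_sum fun a _ => e5 a
  have h11 : ∑ i, ∑ v ∈ S, A (pc i) v ≤ (∑ i, Cp i) * Module.finrank K M := by
    rw [Finset.sum_mul]
    exact Finset.sum_le_sum fun i _ => e6 i
  have h12 : 0 ≤ ∑ i, Cp i := Finset.sum_nonneg fun i _ => hCp0 i
  have h13 : (∑ i, Cp i) * (Module.finrank K M : ℤ) ≤
      ((n + 1 : ℕ) : ℤ) * ((∑ i, Cp i) * Module.finrank K M) := by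
    have h14 : (1 : ℤ) ≤ ((n + 1 : ℕ) : ℤ) := by push_cast; omega
    nlinarith [mul_nonneg h12 h9]
  have h15 := mul_le_mul_of_nonneg_left e4 h7
  have h16 := mul_le_mul_of_nonneg_left h10 h8
  push_cast at h13 h15 h16 ⊢
  nlinarith [h13, h15, h16, h11]

end Pool.Agent.Helper30.ZB
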