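import Pool.Agent.Helper68.ZN.Norm

/-!
# The norm of a finite algebra is a product over algebra homomorphisms
-/

set_option autoImplicit false

namespace Pool.Agent.Helper30.ZB

/-- The norm of a finite-dimensional commutative algebra is the product of algebra homomorphisms
to an algebraically closed field, and all homomorphisms occur. -/
theorem norm_eq_prod {K A Ω : Type} [Field K] [CharZero K] [CommRing A] [Algebra K A]
    [FiniteDimensional K A] [Field Ω] [IsAlgClosed Ω] [Algebra K Ω] :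
    ∃ (t : ℕ) (χ : Fin t → (A →ₐ[K] Ω)),
      (∀ a : A, algebraMap K Ω (Algebra.norm K a) = ∏ i, χ i a) ∧
      ∀ ψ : A →ₐ[K] Ω, ∃ i, χ i = ψ := by
  obtain ⟨n, hn, h⟩ := Pool.Agent.Helper68.ZN.norm_eq_prod K A Ω
  let e : (Σ χ : A →ₐ[K] Ω, Fin (n χ)) ≃ Fin (Fintype.card (Σ χ : A →ₐ[K] Ω, Fin (n χ))) :=
    Fintype.equivFin _
  refine ⟨_, fun i => (e.symm i).1, fun a => ?_, fun ψ => ?_⟩
  · rw [h a, e.symm.prod_comp fun p : (Σ χ : A →ₐ[K] Ω, Fin (n χ)) => p.1 a, Fintype.prod_sigma]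
    refine Finset.prod_congr rfl fun χ _ => ?_
    simp
  · refine ⟨e ⟨ψ, ⟨0, hn ψ⟩⟩, ?_⟩
    simp

end Pool.Agent.Helper30.ZB
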