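import Pool.Agent.Helper30.ZB.Lin
import Pool.Agent.Helper30.ZB.Quot
import Pool.Agent.Helper30.ZB.Small
import Pool.Agent.Helper30.ZB.Level

/-!
# The theorem of Zhang and Bezout for curves over a function field
-/

set_option autoImplicit false

namespace Pool.Agent.Helper30.ZB

open MvPolynomial
open Pool.Agent.Helper16 (Place IsFunctionField)
open Pool.Agent.Helper38.TQ
open Pool.Agent.Helper30.TKN

variable {ν : ℕ} {k K : Type} [Field k] [Field K] [Algebra k K]

/-- Telescoping. -/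
theorem Main_telescope {J : Ideal (MvPolynomial (Fin (ν + 1)) K)} (hp : J.IsPrime) (hJ : Hom J)
    {h : MvPolynomial (Fin (ν + 1)) K} {e : ℕ} (hh : h.IsHomogeneous e) (hhJ : h ∉ J) (m n : ℕ) :
    R J (m + n * e) = R J m + ∑ i ∈ Finset.range n, R (J ⊔ Ideal.span {h}) (m + (i + 1) * e) := by
  induction n with
  | zero => simp
  | succ n ih =>
    have h1 := Dim_add hp hJ hh hhJ (m + n * e)
    rw [show m + n * e + e = m + (n + 1) * e by ring] at h1
    rw [h1, ih, Finset.sum_range_succ]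
    ring

/-- The dimensions modulo `h` do not tend to infinity. -/
theorem Main_bounded {J : Ideal (MvPolynomial (Fin (ν + 1)) K)} (hp : J.IsPrime) (hJ : Hom J)
    {δ c₀ : ℕ} (hδ : ∀ m, R J m ≤ δ * m + c₀) {h : MvPolynomial (Fin (ν + 1)) K} {e : ℕ}
    (he : 0 < e) (hh : h.IsHomogeneous e) (hhJ : h ∉ J) (m₀ : ℕ) :
    ∃ m, m₀ ≤ m ∧ R (J ⊔ Ideal.span {h}) m ≤ e * δ := by
  by_contra hcon
  push Not at hcon
  have h1 : ∀ n, n * (e * δ + 1) ≤ δ * (m₀ + n * e) + c₀ := by
    intro n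
    have h2 := Main_telescope hp hJ hh hhJ m₀ n
    have h3 := hδ (m₀ + n * e)
    have h4 : n * (e * δ + 1) ≤
        ∑ i ∈ Finset.range n, R (J ⊔ Ideal.span {h}) (m₀ + (i + 1) * e) := by
      calc n * (e * δ + 1) = ∑ i ∈ Finset.range n, (e * δ + 1) := by simp
        _ ≤ _ := Finset.sum_le_sum fun i _ => hcon _ (by nlinarith)
    omega
  have h5 := h1 (δ * m₀ + c₀ + 1)
  nlinarith

/-- The degree of the zero scheme. -/
theorem Main_q_le {J : Ideal (MvPolynomial (Fin (ν + 1)) K)} (hp : J.IsPrime) (hJ : Hom J)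
    {δ c₀ : ℕ} (hδ : ∀ m, R J m ≤ δ * m + c₀) {h : MvPolynomial (Fin (ν + 1)) K} {e : ℕ}
    (he : 0 < e) (hh : h.IsHomogeneous e) (hhJ : h ∉ J) {q m₂ : ℕ}
    (hq : ∀ m, m₂ ≤ m → R (J ⊔ Ideal.span {h}) m = q) : q ≤ e * δ := by
  obtain ⟨m, hm, h1⟩ := Main_bounded hp hJ hδ he hh hhJ m₂
  rwa [hq m hm] at h1

/-- The limit. -/
theorem Main_limit {e q s m₂ : ℕ} {H C₁ Ch C₂ : ℤ} (hC₁ : 0 ≤ C₁)
    (h : ∀ n : ℕ, ((e * (n * (n + 1) / 2) : ℕ) : ℤ) * H ≤
      ((m₂ + n * e : ℕ) : ℤ) * ((((n + 1) * q + s : ℕ) : ℤ) * C₁) +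
        (((q * (n * (n + 1) / 2) : ℕ) : ℤ) * Ch + ((n + 1 : ℕ) : ℤ) * C₂)) :
    (e : ℤ) * H ≤ 2 * e * q * C₁ + q * Ch := by
  by_contra hcon
  push Not at hcon
  obtain ⟨C₃, hC₃⟩ : ∃ C₃ : ℤ, C₃ = ((e : ℤ) * s + m₂ * q + m₂ * s) * C₁ + |C₂| := ⟨_, rfl⟩
  have hC₃0 : 0 ≤ C₃ := by
    rw [hC₃]
    positivity
  set n : ℕ := 2 * C₃.toNat + 1 with hn
  have hT : ((n * (n + 1) / 2 : ℕ) : ℤ) * 2 = (n : ℤ) * (n + 1) := by
    have h2 : 2 ∣ n * (n + 1) := (Nat.even_mul_succ_self n).two_dvd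
    have h3 := Nat.div_mul_cancel h2
    exact_mod_cast h3
  have h4 := h n
  set T : ℤ := ((n * (n + 1) / 2 : ℕ) : ℤ) with hTd
  have hT0 : 0 ≤ T := by positivity
  push_cast at h4
  rw [← Nat.cast_ofNat (R := ℤ) (n := 2)] at h4
  have hTc : (((n : ℤ) * ((n : ℤ) + 1)) / 2) = T := by
    rw [hTd]
    push_cast
    rfl
  have h5 : (e : ℤ) * T * H ≤ ((m₂ : ℤ) + n * e) * ((((n : ℤ) + 1) * q + s) * C₁) +
      (q * T * Ch + ((n : ℤ) + 1) * C₂) := by
    have h6 : ((e : ℤ) * (((n : ℤ) * ((n : ℤ) + 1)) / 2)) * H ≤ _ := h4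
    rw [← hTc]
    exact h6
  have h6 : T * (2 * e * q * C₁ + q * Ch + 1) ≤ T * (e * H) :=
    mul_le_mul_of_nonneg_left (by linarith) hT0
  have hnz : (n : ℤ) = 2 * C₃ + 1 := by
    rw [hn]
    push_cast
    rw [Int.toNat_of_nonneg hC₃0]
  have hC₂ : C₂ ≤ |C₂| := le_abs_self C₂
  have hn0 : (0 : ℤ) ≤ n := Int.natCast_nonneg n
  have h7 : T ≤ ((n : ℤ) + 1) * C₃ := by
    have h8 : T * (2 * e * q * C₁) = (n : ℤ) * (n + 1) * e * q * C₁ := by
      rw [← hT]; ring
    have h9 : ((n : ℤ) + 1) * C₂ ≤ ((n : ℤ) + 1) * |C₂| :=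
      mul_le_mul_of_nonneg_left hC₂ (by linarith)
    have h10 : (0 : ℤ) ≤ (e : ℤ) * s * C₁ := by positivity
    have h11 : (0 : ℤ) ≤ (m₂ : ℤ) * s * C₁ * n := by positivity
    rw [hC₃]
    nlinarith
  have h12 : (n : ℤ) * (n + 1) ≤ 2 * (((n : ℤ) + 1) * C₃) := by
    rw [← hT]
    linarith
  have h13 : (n : ℤ) ≤ 2 * C₃ := by
    by_contra h14
    push Not at h14
    nlinarith
  linarith

/-- **The theorem of Zhang and Bezout** for curves over a function field: `J` is the homogeneous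
prime ideal of a curve of degree at most `δ`, `h` a form of degree `e` which is not zero on the
curve. If the points of height at most `C₁` (times the degree) are dense in the curve, then the
height of every zero `y` of `h` on the curve with coordinates in `K` is at most
`δ (2 e C₁ + Ch)`. -/
theorem zhang_bezout [IsAlgClosed k] [CharZero k] (hK : IsFunctionField k K)
    {J : Ideal (MvPolynomial (Fin (ν + 1)) K)} (hp : J.IsPrime) (hJ : Hom J) {δ c₀ : ℕ}
    (hδ : ∀ m, R J m ≤ δ * m + c₀) {h : MvPolynomial (Fin (ν + 1)) K} {e : ℕ} (he : 0 < e)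
    (hh : h.IsHomogeneous e) (hhJ : h ∉ J) {Ch : ℤ} (hCh0 : 0 ≤ Ch) (hCh : GsB k h Ch)
    {C₁ : ℤ} (hC₁ : 0 ≤ C₁) {S : Set (FPt ν k K)} (hS : Dense J S)
    (hSJ : ∀ P ∈ S, ∀ g ∈ J, aeval P.y g = 0)
    (hsmall : ∀ P ∈ S, ht k P.y ≤ C₁ * Module.finrank K P.L)
    {y : Fin (ν + 1) → K} (hy : y ≠ 0) (hyJ : ∀ g ∈ J, aeval y g = 0) (hyh : aeval y h = 0) :
    ht k y ≤ δ * (2 * e * C₁ + Ch) := by
  classical
  haveI : CharZero K := charZero_of_injective_algebraMap (algebraMap k K).injective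
  haveI : Infinite k := IsAlgClosed.instInfinite
  set I : Ideal (MvPolynomial (Fin (ν + 1)) K) := J ⊔ Ideal.span {h} with hI
  have hIh : Hom I := Dim_hom_sup hJ hh
  obtain ⟨c, m₁, hmiss⟩ := Lin_exists (k := k) (I := I) (B := e * δ)
    (fun m₀ => Main_bounded hp hJ hδ he hh hhJ m₀)
  obtain ⟨hfin, m₂', hm₂', hmain⟩ := Quot_main hIh hmiss
  set q : ℕ := Module.finrank K (Qo I c) with hq
  set m₂ : ℕ := m₂' + e with hm₂
  have hqle : q ≤ e * δ := Main_q_le hp hJ hδ he hh hhJ (m₂ := m₂')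
    fun m hm => (hmain m hm).2.2
  -- the bases
  have hb : ∃ qa : Fin q → MvPolynomial (Fin (ν + 1)) K, (∀ a, (qa a).IsHomogeneous m₂) ∧
      ⊤ ≤ Submodule.span K (Set.range fun a => cls I c (qa a)) ∧
      LinearIndependent K fun a => cls I c (qa a) := by
    let B := Module.finBasis K (Qo I c)
    choose qa hqa1 hqa2 using fun a => (hmain m₂ (by omega)).1 (B a)
    refine ⟨qa, hqa1, ?_, ?_⟩
    · have h1 : (fun a => cls I c (qa a)) = B := funext hqa2
      rw [h1, B.span_eq]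
    · have h1 : (fun a => cls I c (qa a)) = B := funext hqa2
      rw [h1]
      exact B.linearIndependent
  obtain ⟨qa, hqa1, hqa2, hqa3⟩ := hb
  obtain ⟨pc, hpc1, hpc2, hpc3⟩ := Dim_exists_basis J (m₂ - e)
  have D : Data J h e c m₂ q (R J (m₂ - e)) qa pc :=
    { prime := hp
      hom := hJ
      h_hom := hh
      e_pos := he
      e_le := by omega
      h_not := hhJ
      misses := fun m hm => hmiss m (by omega)
      qa_hom := hqa1
      qa_span := hqa2
      qa_ind := hqa3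
      qa_gen := fun m hm p hp h0 => (hmain m (by omega)).2.1 p hp h0
      pc_hom := hpc1
      pc_span := hpc2
      pc_ind := hpc3 }
  -- the point `y`
  have hyI : ∀ g ∈ I, aeval y g = 0 := by
    intro g hg
    obtain ⟨g₁, hg₁, g₂, hg₂, rfl⟩ := Submodule.mem_sup.1 hg
    obtain ⟨w, rfl⟩ := Ideal.mem_span_singleton'.1 hg₂
    rw [map_add, hyJ g₁ hg₁, map_mul, hyh, mul_zero, add_zero]
  obtain ⟨ψ, a, ha, hψ⟩ := Pts_zero hIh hmiss K y hy hyI
  obtain ⟨C₂, hC₂⟩ := Level hK D hfin hCh0 hCh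
  have hlim := Main_limit (e := e) (q := q) (s := R J (m₂ - e)) (m₂ := m₂)
    (H := ht k y) (C₁ := C₁) (Ch := Ch) (C₂ := C₂) hC₁ (by
      intro n
      obtain ⟨M, _, _, _, _, _, t, χ, P, h1, h2, h4, h5⟩ := Small_exists D hfin hS n
      have hP0 : ∀ κ, P κ ≠ 0 := by
        intro κ h0
        obtain ⟨S₁, -, σ, hσ⟩ := h4 κ
        apply S₁.ne
        funext i
        have h6 := congrFun (hσ.symm.trans h0) i
        exact (map_eq_zero_iff σ σ.toRingHom.injective).1 h6
      have hPJ : ∀ κ, ∀ g ∈ J, aeval (P κ) g = 0 := by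
        intro κ g hg
        obtain ⟨S₁, hS₁, σ, hσ⟩ := h4 κ
        rw [hσ]
        have h6 : aeval (fun i => σ (S₁.y i)) g = σ (aeval S₁.y g) := by
          rw [← MvPolynomial.comp_aeval_apply]
        rw [h6, hSJ S₁ hS₁ g hg, map_zero]
      have hlev := hC₂ n M t χ P h1 hP0 hPJ h5
      have hMpos : (0 : ℤ) < Module.finrank K M := by
        exact_mod_cast Module.finrank_pos
      have hPs : ∀ κ, ht k (P κ) ≤ C₁ * Module.finrank K M := by
        intro κ
        obtain ⟨S₁, hS₁, σ, hσ⟩ := h4 κ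
        have h6 := Scale_ht hK σ S₁.ne
        rw [← hσ] at h6
        have h7 := hsmall S₁ hS₁
        have hLpos : (0 : ℤ) < Module.finrank K S₁.L := by
          exact_mod_cast Module.finrank_pos
        have h8 : (Module.finrank K S₁.L : ℤ) * ht k (P κ) ≤
            (Module.finrank K S₁.L : ℤ) * (C₁ * Module.finrank K M) := by
          rw [h6]
          calc (Module.finrank K M : ℤ) * ht k S₁.y ≤
              (Module.finrank K M : ℤ) * (C₁ * Module.finrank K S₁.L) :=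
                mul_le_mul_of_nonneg_left h7 hMpos.le
            _ = _ := by ring
        exact le_of_mul_le_mul_left h8 hLpos
      have hsumP : ∑ κ, ht k (P κ) ≤
          ((((n + 1) * q + R J (m₂ - e) : ℕ) : ℤ) * C₁) * Module.finrank K M := by
        calc ∑ κ, ht k (P κ) ≤ ∑ κ : (Fin (n + 1) × Fin q) ⊕ Fin (R J (m₂ - e)),
              C₁ * (Module.finrank K M : ℤ) := Finset.sum_le_sum fun κ _ => hPs κ
          _ = _ := by
            rw [Finset.sum_const, Finset.card_univ, Fintype.card_sum, Fintype.card_prod,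
              Fintype.card_fin, Fintype.card_fin, Fintype.card_fin, nsmul_eq_mul]
            ring
      -- the point `y` over `M`
      have hKM : IsFunctionField k M := Pool.Agent.Helper89.TC.isFunctionField_of_finite M hK
      have hsum : (Module.finrank K M : ℤ) * ht k y ≤
          ∑ i, ht k (fun a => χ i (cls I c (X a))) := by
        obtain ⟨i₀, hi₀⟩ := h2 ((Algebra.ofId K M).comp ψ)
        have h6 := Scale_ht hK (Algebra.ofId K M) hy
        rw [Module.finrank_self, Nat.cast_one, one_mul] at h6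
        have h7 : ht k (fun a => χ i₀ (cls I c (X a))) =
            ht k (fun i => Algebra.ofId K M (y i)) := by
          have h8 : (fun i => Algebra.ofId K M (y i)) =
              (Algebra.ofId K M a) • fun a => χ i₀ (cls I c (X a)) := by
            funext i
            rw [hψ, hi₀]
            change Algebra.ofId K M (a * ψ (cls I c (X i))) =
              Algebra.ofId K M a * Algebra.ofId K M (ψ (cls I c (X i)))
            rw [map_mul]
          rw [h8]
          exact (ht_smul hKM (c := Algebra.ofId K M a)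
            ((map_ne_zero_iff _ (Algebra.ofId K M).toRingHom.injective).2 ha)
            (Pts_of_hom M (χ i₀)).2.1).symm
        rw [← h6, ← h7]
        refine Finset.single_le_sum (f := fun i => ht k (fun a => χ i (cls I c (X a))))
          (fun i _ => ?_) (Finset.mem_univ i₀)
        exact low_ht_nonneg hKM (Pts_of_hom M (χ i)).2.1
      have hm0 : (0 : ℤ) ≤ ((m₂ + n * e : ℕ) : ℤ) := Int.natCast_nonneg _
      have he0 : (0 : ℤ) ≤ ((e * (n * (n + 1) / 2) : ℕ) : ℤ) := Int.natCast_nonneg _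
      have h9 : ((e * (n * (n + 1) / 2) : ℕ) : ℤ) * (ht k y) *
          (Module.finrank K M : ℤ) ≤
          (((m₂ + n * e : ℕ) : ℤ) * ((((n + 1) * q + R J (m₂ - e) : ℕ) : ℤ) * C₁) +
            (((q * (n * (n + 1) / 2) : ℕ) : ℤ) * Ch + ((n + 1 : ℕ) : ℤ) * C₂)) *
            (Module.finrank K M : ℤ) := by
        calc ((e * (n * (n + 1) / 2) : ℕ) : ℤ) * (ht k y) *
              (Module.finrank K M : ℤ) = ((e * (n * (n + 1) / 2) : ℕ) : ℤ) *
              ((Module.finrank K M : ℤ) * ht k y) := by ring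
          _ ≤ ((e * (n * (n + 1) / 2) : ℕ) : ℤ) *
              ∑ i, ht k (fun a => χ i (cls I c (X a))) :=
              mul_le_mul_of_nonneg_left hsum he0
          _ ≤ _ := hlev
          _ ≤ ((m₂ + n * e : ℕ) : ℤ) * (((((n + 1) * q + R J (m₂ - e) : ℕ) : ℤ) * C₁) *
                Module.finrank K M) +
              (((q * (n * (n + 1) / 2) : ℕ) : ℤ) * Ch + ((n + 1 : ℕ) : ℤ) * C₂) *
                (Module.finrank K M : ℤ) := by
              have := mul_le_mul_of_nonneg_left hsumP hm0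
              linarith
          _ = _ := by ring
      exact le_of_mul_le_mul_right h9 hMpos)
  have he' : (0 : ℤ) < e := by exact_mod_cast he
  have hq' : (q : ℤ) ≤ e * δ := by exact_mod_cast hqle
  have h10 : (e : ℤ) * ht k y ≤ (e : ℤ) * (δ * (2 * e * C₁ + Ch)) := by
    refine hlim.trans ?_
    have h11 : (q : ℤ) * (2 * e * C₁ + Ch) ≤ (e * δ) * (2 * e * C₁ + Ch) :=
      mul_le_mul_of_nonneg_right hq' (by positivity)
    linarith
  exact le_of_mul_le_mul_left h10 he'

end Pool.Agent.Helper30.ZB
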