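import Pool.Agent.Helper38.TQK.Form

/-!
# Project ZB (Zhang-Bezout for curves over a function field): definitions
-/

set_option autoImplicit false

namespace Pool.Agent.Helper30.ZB

open MvPolynomial
open Pool.Agent.Helper16 (Place IsFunctionField)
open Pool.Agent.Helper38.TQ
open Pool.Agent.Helper30.TKN

variable {ν : ℕ} {k K : Type} [Field k] [Field K] [Algebra k K]

/-- The ideal is homogeneous. -/
def Hom (I : Ideal (MvPolynomial (Fin (ν + 1)) K)) : Prop :=
  ∀ p ∈ I, ∀ n, homogeneousComponent n p ∈ I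

/-- The classes of the forms of degree `m` modulo the ideal `I`. -/
noncomputable def W (I : Ideal (MvPolynomial (Fin (ν + 1)) K)) (m : ℕ) :
    Submodule K (MvPolynomial (Fin (ν + 1)) K ⧸ I) :=
  (homogeneousSubmodule (Fin (ν + 1)) K m).map (Ideal.Quotient.mkₐ K I).toLinearMap

/-- The dimension of the space of the forms of degree `m` modulo `I`. -/
noncomputable def R (I : Ideal (MvPolynomial (Fin (ν + 1)) K)) (m : ℕ) : ℕ :=
  Module.finrank K (W I m)

/-- The linear form over `K` with constant coefficients `c`. -/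
noncomputable def lf (K : Type) [Field K] [Algebra k K] (c : Fin (ν + 1) → k) :
    MvPolynomial (Fin (ν + 1)) K :=
  ∑ i, C (algebraMap k K (c i)) * X i

/-- A point of projective space with coordinates in a finite extension of `K`. -/
structure FPt (ν : ℕ) (k K : Type) [Field k] [Field K] [Algebra k K] where
  /-- the field -/
  L : Type
  [fld : Field L]
  [algk : Algebra k L]
  [alg : Algebra K L]
  [tow : IsScalarTower k K L]
  [fin : FiniteDimensional K L]
  /-- the coordinates -/
  y : Fin (ν + 1) → L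
  ne : y ≠ 0

attribute [instance] FPt.fld FPt.algk FPt.alg FPt.tow FPt.fin

/-- The affine ring of the chart `l = 1` of the zero set of `I`, `l` the linear form with constant
coefficients `c`. -/
abbrev Qo (I : Ideal (MvPolynomial (Fin (ν + 1)) K)) (c : Fin (ν + 1) → k) : Type :=
  MvPolynomial (Fin (ν + 1)) K ⧸ (I ⊔ Ideal.span {lf K c - 1})

/-- The class of a polynomial in the affine ring. -/
noncomputable abbrev cls (I : Ideal (MvPolynomial (Fin (ν + 1)) K)) (c : Fin (ν + 1) → k)
    (p : MvPolynomial (Fin (ν + 1)) K) : Qo I c :=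
  Ideal.Quotient.mk _ p

/-- The linear form `l` with constant coefficients `c` has no zero on the zero set of `I`: all
forms of large degree are in `I + (l)`. -/
def Misses (I : Ideal (MvPolynomial (Fin (ν + 1)) K)) (c : Fin (ν + 1) → k) (m₁ : ℕ) : Prop :=
  ∀ m, m₁ ≤ m → ∀ p : MvPolynomial (Fin (ν + 1)) K, p.IsHomogeneous m →
    p ∈ I ⊔ Ideal.span {lf K c}

/-- The forms of degree `m₂ + n e` used in the determinants. -/
noncomputable def fam {q s : ℕ} (h : MvPolynomial (Fin (ν + 1)) K) (e : ℕ)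
    (qa : Fin q → MvPolynomial (Fin (ν + 1)) K) (pc : Fin s → MvPolynomial (Fin (ν + 1)) K)
    (n : ℕ) (c : Fin (ν + 1) → k) :
    (Fin (n + 1) × Fin q) ⊕ Fin s → MvPolynomial (Fin (ν + 1)) K
  | Sum.inl (j, a) => h ^ (j : ℕ) * lf K c ^ ((n - j) * e) * qa a
  | Sum.inr i => h ^ (n + 1) * pc i

/-- The data for the determinants: `J` a homogeneous prime ideal, `h` a form of degree `e` outside
`J`, `l = lf K c` a linear form without zero on `J = h = 0`, `qa` forms of degree `m₂` which form a
basis of the affine ring, `pc` forms of degree `m₂ - e` which form a basis modulo `J`. -/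
structure Data (J : Ideal (MvPolynomial (Fin (ν + 1)) K)) (h : MvPolynomial (Fin (ν + 1)) K)
    (e : ℕ) (c : Fin (ν + 1) → k) (m₂ q s : ℕ) (qa : Fin q → MvPolynomial (Fin (ν + 1)) K)
    (pc : Fin s → MvPolynomial (Fin (ν + 1)) K) : Prop where
  prime : J.IsPrime
  hom : Hom J
  h_hom : h.IsHomogeneous e
  e_pos : 0 < e
  e_le : e ≤ m₂
  h_not : h ∉ J
  misses : Misses (J ⊔ Ideal.span {h}) c m₂
  qa_hom : ∀ a, (qa a).IsHomogeneous m₂
  qa_span : ⊤ ≤ Submodule.span K (Set.range fun a => cls (J ⊔ Ideal.span {h}) c (qa a))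
  qa_ind : LinearIndependent K fun a => cls (J ⊔ Ideal.span {h}) c (qa a)
  qa_gen : ∀ m, m₂ ≤ m → ∀ p : MvPolynomial (Fin (ν + 1)) K, p.IsHomogeneous m →
    cls (J ⊔ Ideal.span {h}) c p = 0 → p ∈ J ⊔ Ideal.span {h}
  pc_hom : ∀ i, (pc i).IsHomogeneous (m₂ - e)
  pc_span : ∀ p : MvPolynomial (Fin (ν + 1)) K, p.IsHomogeneous (m₂ - e) →
    ∃ a : Fin s → K, p - ∑ i, C (a i) * pc i ∈ J
  pc_ind : ∀ a : Fin s → K, ∑ i, C (a i) * pc i ∈ J → a = 0

end Pool.Agent.Helper30.ZB
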