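import Pool.Agent.Helper30.ZB.Defs

/-!
# Dimensions of the spaces of forms modulo an ideal
-/

set_option autoImplicit false

namespace Pool.Agent.Helper30.ZB

open MvPolynomial

variable {ν : ℕ} {k K : Type} [Field k] [Field K] [Algebra k K]

theorem Dim_finite (I : Ideal (MvPolynomial (Fin (ν + 1)) K)) (m : ℕ) :
    FiniteDimensional K (W I m) :=
  Module.Finite.iff_fg.2 ((homogeneousSubmodule_fg (Fin (ν + 1)) K m).map _)

theorem Dim_comp_mul {h : MvPolynomial (Fin (ν + 1)) K} {e : ℕ} (hh : h.IsHomogeneous e)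
    (q : MvPolynomial (Fin (ν + 1)) K) (m : ℕ) :
    homogeneousComponent (m + e) (h * q) = h * homogeneousComponent m q := by
  conv_lhs => rw [← sum_homogeneousComponent q, Finset.mul_sum, map_sum]
  have h1 : ∀ i, homogeneousComponent (m + e) (h * homogeneousComponent i q) =
      if i = m then h * homogeneousComponent i q else 0 := by
    intro i
    have h2 : (h * homogeneousComponent i q) ∈
        homogeneousSubmodule (Fin (ν + 1)) K (e + i) :=
      hh.mul (homogeneousComponent_isHomogeneous i q)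
    rw [homogeneousComponent_of_mem h2]
    by_cases him : i = m
    · subst him
      rw [if_pos (Nat.add_comm _ _), if_pos rfl]
    · rw [if_neg (by omega), if_neg him]
  rw [Finset.sum_congr rfl fun i _ => h1 i, Finset.sum_ite_eq' (Finset.range (q.totalDegree + 1)) m]
  split_ifs with hm
  · rfl
  · rw [homogeneousComponent_eq_zero, mul_zero]
    simpa using hm

theorem Dim_comp_mul_lt {h : MvPolynomial (Fin (ν + 1)) K} {e : ℕ} (hh : h.IsHomogeneous e)
    (q : MvPolynomial (Fin (ν + 1)) K) {n : ℕ} (hn : n < e) :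
    homogeneousComponent n (h * q) = 0 := by
  conv_lhs => rw [← sum_homogeneousComponent q, Finset.mul_sum, map_sum]
  refine Finset.sum_eq_zero fun i _ => ?_
  have h2 : (h * homogeneousComponent i q) ∈
      homogeneousSubmodule (Fin (ν + 1)) K (e + i) :=
    hh.mul (homogeneousComponent_isHomogeneous i q)
  rw [homogeneousComponent_of_mem h2, if_neg (by omega)]

theorem Dim_hom_sup {J : Ideal (MvPolynomial (Fin (ν + 1)) K)} (hJ : Hom J)
    {h : MvPolynomial (Fin (ν + 1)) K} {e : ℕ} (hh : h.IsHomogeneous e) :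
    Hom (J ⊔ Ideal.span {h}) := by
  intro p hp n
  obtain ⟨j, hj, x, hx, rfl⟩ := Submodule.mem_sup.1 hp
  obtain ⟨q, rfl⟩ := Ideal.mem_span_singleton'.1 hx
  rw [map_add, mul_comm q h]
  refine Ideal.add_mem _ (Ideal.mem_sup_left (hJ j hj n)) (Ideal.mem_sup_right ?_)
  rcases lt_or_ge n e with hn | hn
  · rw [Dim_comp_mul_lt hh q hn]
    exact Ideal.zero_mem _
  · obtain ⟨m, rfl⟩ := Nat.exists_eq_add_of_le' hn
    rw [Dim_comp_mul hh q m]
    exact Ideal.mul_mem_right _ _ (Ideal.mem_span_singleton_self h)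

theorem Dim_mem {I : Ideal (MvPolynomial (Fin (ν + 1)) K)} {m : ℕ}
    {x : MvPolynomial (Fin (ν + 1)) K ⧸ I} :
    x ∈ W I m ↔ ∃ p : MvPolynomial (Fin (ν + 1)) K, p.IsHomogeneous m ∧
      Ideal.Quotient.mk I p = x :=
  Iff.rfl

/-- `0 → B_m → B_(m+e) → Q_(m+e) → 0`, the first map is the multiplication by `h`. -/
theorem Dim_add {J : Ideal (MvPolynomial (Fin (ν + 1)) K)} (hp : J.IsPrime) (hJ : Hom J)
    {h : MvPolynomial (Fin (ν + 1)) K} {e : ℕ} (hh : h.IsHomogeneous e) (hhJ : h ∉ J) (m : ℕ) :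
    R J (m + e) = R J m + R (J ⊔ Ideal.span {h}) (m + e) := by
  have hfin := Dim_finite J (m + e)
  have hfin0 := Dim_finite J m
  set V := W J (m + e) with hV
  let π : (MvPolynomial (Fin (ν + 1)) K ⧸ J) →ₐ[K]
      (MvPolynomial (Fin (ν + 1)) K ⧸ (J ⊔ Ideal.span {h})) :=
    Ideal.Quotient.factorₐ K le_sup_left
  have hπ : ∀ p : MvPolynomial (Fin (ν + 1)) K, π (Ideal.Quotient.mk J p) =
      Ideal.Quotient.mk (J ⊔ Ideal.span {h}) p := fun p => rfl
  have hrange : LinearMap.range (π.toLinearMap.domRestrict V) =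
      W (J ⊔ Ideal.span {h}) (m + e) := by
    ext x
    rw [LinearMap.mem_range]
    constructor
    · rintro ⟨⟨y, hy⟩, rfl⟩
      obtain ⟨p, hp1, rfl⟩ := Dim_mem.1 hy
      exact Dim_mem.2 ⟨p, hp1, rfl⟩
    · intro hx
      obtain ⟨p, hp1, rfl⟩ := Dim_mem.1 hx
      exact ⟨⟨Ideal.Quotient.mk J p, Dim_mem.2 ⟨p, hp1, rfl⟩⟩, rfl⟩
  have hmul : ∀ x ∈ W J m, Ideal.Quotient.mk J h * x ∈ V := by
    intro x hx
    obtain ⟨p, hp1, rfl⟩ := Dim_mem.1 hx
    have h0 := hh.mul hp1
    rw [Nat.add_comm e m] at h0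
    exact Dim_mem.2 ⟨h * p, h0, map_mul _ _ _⟩
  let g : W J m →ₗ[K] V :=
    (LinearMap.mulLeft K (Ideal.Quotient.mk J h)).restrict hmul
  have hginj : Function.Injective g := by
    intro x y hxy
    have h1 : Ideal.Quotient.mk J h * (x : MvPolynomial (Fin (ν + 1)) K ⧸ J) =
        Ideal.Quotient.mk J h * (y : MvPolynomial (Fin (ν + 1)) K ⧸ J) := congrArg Subtype.val hxy
    have : IsDomain (MvPolynomial (Fin (ν + 1)) K ⧸ J) := Ideal.Quotient.isDomain J
    have h2 : Ideal.Quotient.mk J h ≠ 0 := fun h0 => hhJ (Ideal.Quotient.eq_zero_iff_mem.1 h0)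
    exact Subtype.ext (mul_left_cancel₀ h2 h1)
  have hker : LinearMap.ker (π.toLinearMap.domRestrict V) = LinearMap.range g := by
    ext x
    rw [LinearMap.mem_ker, LinearMap.mem_range]
    constructor
    · intro hx
      obtain ⟨y, hy⟩ := x
      obtain ⟨p, hp1, rfl⟩ := Dim_mem.1 hy
      have h3 : p ∈ J ⊔ Ideal.span {h} := by
        rw [← Ideal.Quotient.eq_zero_iff_mem]
        exact hx
      obtain ⟨j, hj, z, hz, hjz⟩ := Submodule.mem_sup.1 h3
      obtain ⟨q, rfl⟩ := Ideal.mem_span_singleton'.1 hz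
      have h4 : homogeneousComponent (m + e) p = p := by
        rw [homogeneousComponent_of_mem (show p ∈ homogeneousSubmodule _ _ (m + e) from hp1),
          if_pos rfl]
      have h5 : p = homogeneousComponent (m + e) j + h * homogeneousComponent m q := by
        rw [← Dim_comp_mul hh q m, ← map_add, mul_comm h q, hjz, h4]
      refine ⟨⟨Ideal.Quotient.mk J (homogeneousComponent m q),
        Dim_mem.2 ⟨_, homogeneousComponent_isHomogeneous m q, rfl⟩⟩, Subtype.ext ?_⟩
      show Ideal.Quotient.mk J h * Ideal.Quotient.mk J (homogeneousComponent m q) =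
        Ideal.Quotient.mk J p
      rw [h5, map_add, map_mul, Ideal.Quotient.eq_zero_iff_mem.2 (hJ j hj (m + e)), zero_add]
    · rintro ⟨⟨y, hy⟩, rfl⟩
      obtain ⟨p, hp1, rfl⟩ := Dim_mem.1 hy
      show Ideal.Quotient.mk (J ⊔ Ideal.span {h}) (h * p) = 0
      rw [Ideal.Quotient.eq_zero_iff_mem]
      exact Ideal.mem_sup_right (Ideal.mul_mem_right _ _ (Ideal.mem_span_singleton_self h))
  have h6 := LinearMap.finrank_range_add_finrank_ker (π.toLinearMap.domRestrict V)
  rw [hrange, hker, LinearMap.finrank_range_of_inj hginj] at h6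
  unfold R
  rw [← hV, ← h6, Nat.add_comm]

/-- Forms of degree `m` whose classes are a basis. -/
theorem Dim_exists_basis (I : Ideal (MvPolynomial (Fin (ν + 1)) K)) (m : ℕ) :
    ∃ p : Fin (R I m) → MvPolynomial (Fin (ν + 1)) K, (∀ i, (p i).IsHomogeneous m) ∧
      (∀ g : MvPolynomial (Fin (ν + 1)) K, g.IsHomogeneous m →
        ∃ a : Fin (R I m) → K, g - ∑ i, C (a i) * p i ∈ I) ∧
      ∀ a : Fin (R I m) → K, ∑ i, C (a i) * p i ∈ I → a = 0 := by
  have hfin := Dim_finite I m
  let b : Module.Basis (Fin (R I m)) K (W I m) := Module.finBasis K (W I m)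
  choose p hp1 hp2 using fun i : Fin (R I m) => Dim_mem.1 (b i).2
  have hmk : ∀ a : Fin (R I m) → K, Ideal.Quotient.mk I (∑ i, C (a i) * p i) =
      ((∑ i, a i • b i : W I m) : MvPolynomial (Fin (ν + 1)) K ⧸ I) := by
    intro a
    rw [map_sum, AddSubmonoidClass.coe_finsetSum]
    refine Finset.sum_congr rfl fun i _ => ?_
    rw [map_mul, hp2 i, Submodule.coe_smul]
    exact (Algebra.smul_def (a i) ((b i : W I m) : MvPolynomial (Fin (ν + 1)) K ⧸ I)).symm
  refine ⟨p, hp1, fun g hg => ?_, fun a ha => ?_⟩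
  · let x : W I m := ⟨Ideal.Quotient.mk I g, Dim_mem.2 ⟨g, hg, rfl⟩⟩
    refine ⟨fun i => b.repr x i, ?_⟩
    rw [← Ideal.Quotient.eq_zero_iff_mem, map_sub, hmk, b.sum_repr x, sub_self]
  · rw [← Ideal.Quotient.eq_zero_iff_mem, hmk] at ha
    have h1 : (∑ i, a i • b i : W I m) = 0 := Subtype.ext ha
    have h2 := Fintype.linearIndependent_iff.1 b.linearIndependent a h1
    funext i
    exact h2 i

end Pool.Agent.Helper30.ZB
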