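import Pool.Agent.Helper30.ZB.Dim

/-!
# A constant linear form without zero on a finite set
-/

set_option autoImplicit false

namespace Pool.Agent.Helper30.ZB

open MvPolynomial

variable {ν : ℕ} {k K : Type} [Field k] [Field K] [Algebra k K]

/-- Two linear forms satisfy a binary relation modulo `I`. -/
theorem Lin_relation {I : Ideal (MvPolynomial (Fin (ν + 1)) K)} {B : ℕ}
    (hB : ∀ m₀, ∃ m, m₀ ≤ m ∧ R I m ≤ B) (a b : MvPolynomial (Fin (ν + 1)) K)
    (ha : a.IsHomogeneous 1) (hb : b.IsHomogeneous 1) :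
    ∃ (m : ℕ) (Q : MvPolynomial (Fin 2) K), Q.IsHomogeneous m ∧ Q ≠ 0 ∧
      aeval ![a, b] Q ∈ I := by
  classical
  obtain ⟨m, hm, hR⟩ := hB B
  have hfin := Dim_finite I m
  have hhom : ∀ i : Fin (m + 1), (a ^ (i : ℕ) * b ^ (m - i)).IsHomogeneous m := by
    intro i
    have h1 := (ha.pow (i : ℕ)).mul (hb.pow (m - i))
    have h2 : 1 * (i : ℕ) + 1 * (m - i) = m := by
      have := i.is_lt
      omega
    rwa [h2] at h1
  let v : Fin (m + 1) → W I m := fun i =>
    ⟨(Ideal.Quotient.mkₐ K I).toLinearMap (a ^ (i : ℕ) * b ^ (m - i)),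
      Submodule.mem_map_of_mem ((mem_homogeneousSubmodule _ _).2 (hhom i))⟩
  have hnot : ¬ LinearIndependent K v := by
    intro hli
    have := hli.fintype_card_le_finrank
    rw [Fintype.card_fin] at this
    have h3 : Module.finrank K (W I m) ≤ B := hR
    omega
  obtain ⟨g, hg, i₀, hi₀⟩ := Fintype.not_linearIndependent_iff.1 hnot
  have hg' : ∑ i : Fin (m + 1), C (g i) * (a ^ (i : ℕ) * b ^ (m - i)) ∈ I := by
    have h1 : ((∑ i, g i • v i : W I m) : MvPolynomial (Fin (ν + 1)) K ⧸ I) = 0 := by
      rw [hg]; rfl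
    rw [AddSubmonoidClass.coe_finsetSum] at h1
    have h2 : Ideal.Quotient.mk I (∑ i : Fin (m + 1), C (g i) * (a ^ (i : ℕ) * b ^ (m - i))) = 0 := by
      rw [map_sum, ← h1]
      refine Finset.sum_congr rfl fun i _ => ?_
      rw [← MvPolynomial.smul_eq_C_mul]
      rfl
    exact Ideal.Quotient.eq_zero_iff_mem.1 h2
  refine ⟨m, ∑ i : Fin (m + 1), C (g i) * (X 0 ^ (i : ℕ) * X 1 ^ (m - i)), ?_, ?_, ?_⟩
  · refine MvPolynomial.IsHomogeneous.sum _ _ _ fun i _ => ?_
    have h1 := (isHomogeneous_C (Fin 2) (g i)).mul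
      (((isHomogeneous_X K (0 : Fin 2)).pow (i : ℕ)).mul
        ((isHomogeneous_X K (1 : Fin 2)).pow (m - i)))
    have h2 : 0 + (1 * (i : ℕ) + 1 * (m - i)) = m := by
      have := i.is_lt
      omega
    rwa [h2] at h1
  · intro h0
    have h1 := congrArg (coeff (Finsupp.single 0 (i₀ : ℕ) + Finsupp.single 1 (m - i₀))) h0
    rw [coeff_zero, coeff_sum, Finset.sum_eq_single i₀] at h1
    · rw [coeff_C_mul, X_pow_eq_monomial, X_pow_eq_monomial, monomial_mul, coeff_monomial] at h1
      simp at h1
      exact hi₀ h1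
    · intro j _ hj
      rw [coeff_C_mul, X_pow_eq_monomial, X_pow_eq_monomial, monomial_mul, coeff_monomial,
        if_neg, mul_zero]
      intro h2
      have h3 := DFunLike.congr_fun h2 0
      simp at h3
      exact hj (Fin.ext h3)
    · intro h; exact absurd (Finset.mem_univ _) h
  · have h1 : aeval ![a, b] (∑ i : Fin (m + 1), C (g i) * (X 0 ^ (i : ℕ) * X 1 ^ (m - i)) :
        MvPolynomial (Fin 2) K) = ∑ i : Fin (m + 1), C (g i) * (a ^ (i : ℕ) * b ^ (m - i)) := by
      rw [map_sum]
      refine Finset.sum_congr rfl fun i _ => ?_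
      simp [MvPolynomial.algebraMap_eq]
    rw [h1]
    exact hg'

theorem Lin_lf_hom (c : Fin (ν + 1) → k) : (lf K c).IsHomogeneous 1 := by
  unfold lf
  refine MvPolynomial.IsHomogeneous.sum _ _ _ fun i _ => ?_
  have h1 := (isHomogeneous_C (Fin (ν + 1)) (algebraMap k K (c i))).mul
    (isHomogeneous_X K i)
  simpa using h1

theorem Lin_lf_add (c : Fin (ν + 1) → k) (i : Fin (ν + 1)) (t : k) :
    lf K (c + Pi.single i t) = lf K c + C (algebraMap k K t) * X i := by
  classical
  unfold lf
  simp only [Pi.add_apply, map_add, add_mul, Finset.sum_add_distrib]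
  congr 1
  rw [Finset.sum_eq_single i]
  · simp
  · intro j _ hj
    simp [Pi.single_eq_of_ne hj]
  · intro h; exact absurd (Finset.mem_univ _) h

theorem Lin_q (Q : MvPolynomial (Fin 2) K) :
    aeval ![-Polynomial.X, (1 : Polynomial K)] Q =
      ∑ d ∈ Q.support, Polynomial.C (coeff d Q) * (-Polynomial.X) ^ d 0 := by
  rw [aeval_def, eval₂_eq']
  refine Finset.sum_congr rfl fun d _ => ?_
  simp [Fin.prod_univ_two, Polynomial.algebraMap_eq]

/-- A nonzero binary form does not vanish at `(-t, 1)` for some `t` in the infinite field `k`. -/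
theorem Lin_value [Infinite k] {m : ℕ} {Q : MvPolynomial (Fin 2) K} (hQ : Q.IsHomogeneous m)
    (hQ0 : Q ≠ 0) : ∃ t : k, eval ![-(algebraMap k K t), 1] Q ≠ 0 := by
  classical
  by_contra hcon
  push Not at hcon
  -- the polynomial in one variable
  let q : Polynomial K := ∑ d ∈ Q.support, Polynomial.C (coeff d Q) * (-Polynomial.X) ^ d 0
  have hq : ∀ t : k, q.eval (algebraMap k K t) = 0 := by
    intro t
    rw [← hcon t, eval_eq']
    simp only [q, Polynomial.eval_finsetSum]
    refine Finset.sum_congr rfl fun d _ => ?_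
    simp [Fin.prod_univ_two]
  have hq0 : q = 0 := by
    refine Polynomial.eq_zero_of_infinite_isRoot q ?_
    refine (Set.infinite_range_of_injective (algebraMap k K).injective).mono ?_
    rintro _ ⟨t, rfl⟩
    exact hq t
  obtain ⟨x, hx⟩ : Q.support.Nonempty := by
    rw [Finset.nonempty_iff_ne_empty]
    intro h
    exact hQ0 (support_eq_empty.1 h)
  have hdeg : ∀ d ∈ Q.support, d 0 + d 1 = m := by
    intro d hd
    have h1 := hQ (mem_support_iff.1 hd)
    rw [Finsupp.weight_apply, Finsupp.sum_fintype _ _ (by simp)] at h1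
    simpa [Fin.sum_univ_two] using h1
  have h1 : q.coeff (x 0) = coeff x Q * (-1) ^ x 0 := by
    simp only [q, Polynomial.finsetSum_coeff]
    have hc : ∀ n j : ℕ, ((-Polynomial.X : Polynomial K) ^ n).coeff j =
        if j = n then (-1) ^ n else 0 := by
      intro n j
      rw [neg_pow, show (-1 : Polynomial K) ^ n = Polynomial.C ((-1) ^ n) by simp,
        Polynomial.coeff_C_mul, Polynomial.coeff_X_pow]
      split_ifs <;> simp
    rw [Finset.sum_eq_single x]
    · rw [Polynomial.coeff_C_mul, hc, if_pos rfl]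
    · intro d hd hdx
      rw [Polynomial.coeff_C_mul, hc, if_neg, mul_zero]
      intro h0
      apply hdx
      have h1 := hdeg d hd
      have h2 := hdeg x hx
      ext i
      fin_cases i
      · exact h0.symm
      · show d 1 = x 1
        omega
    · intro h; exact absurd hx h
  rw [hq0, Polynomial.coeff_zero] at h1
  have h2 : coeff x Q ≠ 0 := mem_support_iff.1 hx
  have h3 : ((-1 : K)) ^ x 0 ≠ 0 := pow_ne_zero _ (by simp)
  exact mul_ne_zero h2 h3 h1.symm

/-- If the dimensions do not tend to infinity then some constant linear form has no zero on the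
zero set of `I`. -/
theorem Lin_exists [Infinite k] {I : Ideal (MvPolynomial (Fin (ν + 1)) K)} {B : ℕ}
    (hB : ∀ m₀, ∃ m, m₀ ≤ m ∧ R I m ≤ B) :
    ∃ (c : Fin (ν + 1) → k) (m₁ : ℕ), Misses I c m₁ := by
  classical
  have key : ∀ S : Finset (Fin (ν + 1)), ∃ c : Fin (ν + 1) → k,
      ∀ i ∈ S, (X i : MvPolynomial (Fin (ν + 1)) K) ∈ (I ⊔ Ideal.span {lf K c}).radical := by
    intro S
    induction S using Finset.induction_on with
    | empty => exact ⟨0, by simp⟩
    | insert i S hi ih =>
      obtain ⟨c, hc⟩ := ih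
      obtain ⟨m, Q, hQ, hQ0, hQI⟩ := Lin_relation hB (lf K c) (X i) (Lin_lf_hom c)
        (isHomogeneous_X K i)
      obtain ⟨t, ht⟩ := Lin_value (k := k) hQ hQ0
      set c' := c + Pi.single i t with hc'
      set I' := I ⊔ Ideal.span {lf K c'} with hI'
      have hI : I ≤ I' := le_sup_left
      have hl : lf K c' ∈ I' := Ideal.mem_sup_right (Ideal.mem_span_singleton_self _)
      have hlX : lf K c = lf K c' + C (-(algebraMap k K t)) * X i := by
        rw [hc', Lin_lf_add]
        simp [map_neg]
      have hQ' : aeval ![lf K c, (X i : MvPolynomial (Fin (ν + 1)) K)] Q -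
          C (eval ![-(algebraMap k K t), 1] Q) * X i ^ m ∈ Ideal.span {lf K c'} := by
        rw [aeval_def, eval₂_eq', eval_eq', map_sum, Finset.sum_mul, ← Finset.sum_sub_distrib]
        refine Ideal.sum_mem _ fun d hd => ?_
        have hdm : d 0 + d 1 = m := by
          have h1 := hQ (mem_support_iff.1 hd)
          rw [Finsupp.weight_apply, Finsupp.sum_fintype _ _ (by simp)] at h1
          simpa [Fin.sum_univ_two] using h1
        rw [Ideal.mem_span_singleton]
        have h2 : (algebraMap K (MvPolynomial (Fin (ν + 1)) K)) (coeff d Q) *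
            ∏ j, ![lf K c, (X i : MvPolynomial (Fin (ν + 1)) K)] j ^ d j -
            C (coeff d Q * ∏ j, ![-(algebraMap k K t), (1 : K)] j ^ d j) * X i ^ m =
            C (coeff d Q) * X i ^ d 1 *
              (lf K c ^ d 0 - (C (-(algebraMap k K t)) * X i) ^ d 0) := by
          rw [← hdm]
          simp only [Fin.prod_univ_two, MvPolynomial.algebraMap_eq, Matrix.cons_val_zero,
            Matrix.cons_val_one, one_pow, mul_one, map_mul, map_pow]
          ring
        rw [h2]
        refine Dvd.dvd.mul_left ?_ _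
        have h3 := sub_dvd_pow_sub_pow (lf K c) (C (-(algebraMap k K t)) * X i) (d 0)
        rwa [hlX, add_sub_cancel_right, ← hlX] at h3
      have hX : (X i : MvPolynomial (Fin (ν + 1)) K) ∈ I'.radical := by
        refine ⟨m, ?_⟩
        have h1 : C (eval ![-(algebraMap k K t), 1] Q) * (X i : MvPolynomial (Fin (ν + 1)) K) ^ m
            ∈ I' := by
          have h2 := I'.sub_mem (hI hQI) ((le_sup_right : _ ≤ I') hQ')
          simpa using h2
        have h3 := I'.mul_mem_left (C (eval ![-(algebraMap k K t), 1] Q)⁻¹) h1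
        rw [← mul_assoc, ← map_mul, inv_mul_cancel₀ ht, map_one, one_mul] at h3
        exact h3
      have hlr : lf K c ∈ I'.radical := by
        rw [hlX]
        exact I'.radical.add_mem (Ideal.le_radical hl) (I'.radical.mul_mem_left _ hX)
      refine ⟨c', fun j hj => ?_⟩
      rw [Finset.mem_insert] at hj
      rcases hj with rfl | hj
      · exact hX
      · have h1 : I ⊔ Ideal.span {lf K c} ≤ I'.radical := by
          refine sup_le (hI.trans Ideal.le_radical) ?_
          rw [Ideal.span_singleton_le_iff_mem]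
          exact hlr
        have h2 := Ideal.radical_mono h1 (hc j hj)
        rwa [Ideal.radical_idem] at h2
  obtain ⟨c, hc⟩ := key Finset.univ
  have h1 : idealOfVars (Fin (ν + 1)) K ≤ (I ⊔ Ideal.span {lf K c}).radical := by
    rw [Ideal.span_le]
    rintro _ ⟨i, rfl⟩
    exact hc i (Finset.mem_univ i)
  obtain ⟨m₁, hm₁⟩ := Ideal.exists_pow_le_of_le_radical_of_fg h1 (idealOfVars_fg _ _)
  refine ⟨c, m₁, fun m hm p hp => hm₁ ?_⟩
  rw [mem_pow_idealOfVars_iff]
  intro x hx
  have := hp (mem_support_iff.1 hx)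
  rw [Finsupp.degree_eq_weight_one]
  exact hm.trans this.symm.le

end Pool.Agent.Helper30.ZB
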